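import Pool.Agent.Lib.QM89.CE
import Pool.Agent.Lib.ECM.M_CNT

/-! Counting points with two singular relations, sixth part: counting in a logarithmic chart. -/

open Filter Topology Metric Complex
open scoped Real

namespace Pool.Agent.Lib.QM89

open Pool.Agent.Lib.ZP3 Pool.Agent.Lib.ZP3.CNT
open Pool.Agent.Lib.ECM (cht T3 Ch)
open Pool.Agent.Lib.ECM.CNT (exists_bd param_le)

theorem Tw.mono {H H' : ℝ} {T : Fin 3 → ℂ} (h : Tw H T) (hH : H ≤ H') : Tw H' T := by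
  obtain ⟨h0, p, h1, h2⟩ := h
  exact ⟨h0, p, h1, fun l ↦ ⟨fun i ↦ ((h2 l).1 i).trans hH, (h2 l).2⟩⟩

theorem count_K (Cn : ℕ → ℕ) (N : ℕ) {ε K : ℝ} (hε : 0 < ε) (hK : 1 ≤ K) : ∃ C : ℝ, 0 ≤ C ∧
    ∀ (M : ℝ) (f : Fin 3 → ℂ → ℂ) (S : Finset ℂ), 2 ≤ M →
    (∀ i, AnalyticOnNhd ℂ (f i) (closedBall 0 10)) → (∀ i s, ‖s‖ ≤ 10 → ‖f i s‖ ≤ K * M) →
    NDegC f Cn → Str f N →
    (∀ u ∈ S, ‖u‖ ≤ 1 ∧ Tw (M ^ 9) fun i ↦ f i u) → (S.card : ℝ) ≤ C * M ^ ε := by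
  obtain ⟨C, hC⟩ := count_core Cn N (ε := ε / 9) (by positivity)
  have N0 : (0 : ℝ) ≤ N := N.cast_nonneg
  refine ⟨|C| * (K + 1000 + N) ^ (ε / 9), by positivity, fun M f S hM hf hb hn hs hS ↦ ?_⟩
  have h1 : M ≤ M ^ 9 := le_self_pow₀ (by linarith) (by norm_num)
  have h2 : (M ^ 9) ^ (ε / 9) = M ^ ε := by
    rw [← Real.rpow_natCast, ← Real.rpow_mul (by linarith)]
    congr 1
    push_cast
    ring
  refine (hC ((K + 1000 + N) * M ^ 9) f S ⟨by nlinarith, hf,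
    fun i s h ↦ (hb i s h).trans (by gcongr; linarith), hn, hs, by nlinarith⟩ fun u hu ↦
    ⟨(hS u hu).1, (hS u hu).2.mono (by nlinarith)⟩).trans ?_
  rw [Real.mul_rpow (by linarith) (by linarith), h2, mul_assoc]
  exact mul_le_mul_of_nonneg_right (le_abs_self C) (by positivity)

/-- a chart without logarithmic term -/
theorem count_reg (g : Fin 3 → ℂ → ℂ) {r : ℝ} (hr : 0 < r)
    (hg : ∀ i, AnalyticOnNhd ℂ (g i) (ball 0 r))
    (hind : ∀ c : MvPolynomial (Fin 3) ℂ, (∀ w : ℂ, ‖exp w‖ < r →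
      MvPolynomial.eval (fun i ↦ g i (exp w)) c = 0) → c = 0) {ε : ℝ} (hε : 0 < ε) :
    ∃ C : ℝ, 0 ≤ C ∧ ∀ (M : ℝ) (S : Finset ℂ), 2 ≤ M →
      (∀ u ∈ S, ‖u‖ ≤ r / 20 ∧ Tw (M ^ 9) fun i ↦ g i u) → (S.card : ℝ) ≤ C * M ^ ε := by
  obtain ⟨K, hK, hb⟩ := exists_bd hr hg
  have hn : ∀ s : ℂ, ‖((r / 20 : ℝ) : ℂ) * s‖ = r / 20 * ‖s‖ := fun s ↦ by
    rw [norm_mul, norm_real, Real.norm_of_nonneg (by positivity)]
  have h10 : ∀ s : ℂ, ‖s‖ ≤ 10 → ‖((r / 20 : ℝ) : ℂ) * s‖ ≤ r / 2 := fun s hs ↦ by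
    rw [hn]
    nlinarith
  have hf : ∀ i, AnalyticOnNhd ℂ (fun s ↦ g i (((r / 20 : ℝ) : ℂ) * s)) (closedBall 0 10) :=
    fun i s hs ↦ (hg i _ (mem_ball_zero_iff.2 ((h10 s (mem_closedBall_zero_iff.1 hs)).trans_lt
      (by linarith)))).fun_comp (f := fun s ↦ ((r / 20 : ℝ) : ℂ) * s)
      (analyticAt_const.mul analyticAt_id)
  have hdiv : ∀ u : ℂ, ((r / 20 : ℝ) : ℂ) * (u / ((r / 20 : ℝ) : ℂ)) = u := fun u ↦
    mul_div_cancel₀ _ (ofReal_ne_zero.2 (by positivity))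
  have hle : ∀ u : ℂ, ‖u‖ ≤ r / 20 → ‖u / ((r / 20 : ℝ) : ℂ)‖ ≤ 1 := fun u hu ↦ by
    rw [norm_div, norm_real, Real.norm_of_nonneg (by positivity), div_le_one (by positivity)]
    exact hu
  obtain ⟨Cn, hCn⟩ := nd_compactC hf fun c hc ↦ hind c fun w hw ↦ by
    have a1 : AnalyticOnNhd ℂ (fun u ↦ MvPolynomial.eval (fun i ↦ g i u) c) (ball 0 r) :=
      AnalyticOnNhd.aeval_mvPolynomial (f := fun s i ↦ g i s) hg c
    refine a1.eqOn_zero_of_preconnected_of_eventuallyEq_zero (convex_ball 0 r).isPreconnected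
      (mem_ball_self hr) ?_ (mem_ball_zero_iff.2 hw)
    filter_upwards [closedBall_mem_nhds (0 : ℂ) (show 0 < r / 20 by positivity)] with u hu
    have := hc _ ((hle u (mem_closedBall_zero_iff.1 hu)).trans one_le_two)
    rwa [hdiv] at this
  obtain ⟨N, hN⟩ := str_nd hf hCn
  obtain ⟨C, hC0, hC⟩ := count_K Cn N hε hK
  refine ⟨C, hC0, fun M S hM hS ↦ ?_⟩
  refine card_le_of_param S (fun s ↦ ((r / 20 : ℝ) : ℂ) * s) (fun s ↦ ‖s‖ ≤ 1)
    (fun u hu ↦ ⟨_, hle u (hS u hu).1, hdiv u⟩) fun S' hS' ↦ ?_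
  exact hC M _ S' hM hf (fun i s hs ↦ (hb i _ (h10 s hs)).trans
    (le_mul_of_one_le_right (by linarith) (by linarith))) hCn hN
    fun s hs ↦ ⟨(hS' s hs).1, (hS _ (hS' s hs).2).2⟩

/-- a chart with logarithmic term, down to depth `L * Y` -/
theorem count_log {m : Fin 3 → ℂ} (hm : m ≠ 0) (g : Fin 3 → ℂ → ℂ) {r : ℝ} (hr : 0 < r)
    (hg : ∀ i, AnalyticOnNhd ℂ (g i) (ball 0 r))
    (hind : ∀ c : MvPolynomial (Fin 3) ℂ, (∀ w : ℂ, ‖exp w‖ < r →
      MvPolynomial.eval (fun i ↦ m i * w + g i (exp w)) c = 0) → c = 0) {ε L : ℝ} (hε : 0 < ε)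
    (hL : 0 ≤ L) : ∃ C : ℝ, 0 ≤ C ∧ ∀ (M Y : ℝ) (S : Finset ℂ), 2 ≤ M → 1 ≤ Y → Y ≤ M →
      (∀ w ∈ S, w.re ≤ Real.log r - 11 ∧ |w.im| ≤ π ∧ ‖w‖ ≤ L * Y ∧
        Tw (M ^ 9) fun i ↦ m i * w + g i (exp w)) → (S.card : ℝ) ≤ C * Y * M ^ ε := by
  obtain ⟨K, hK, hb⟩ := exists_bd hr hg
  obtain ⟨Cn, hCn⟩ := nd_cuspC g m hr hg hind
  have han : ∀ (k : ℕ) (l : ℤ) i, AnalyticOnNhd ℂ
      (fun s ↦ m i * (ctr r k l + s) + g i (exp (ctr r k l + s))) (closedBall 0 10) :=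
    fun k l i s hs ↦ by
      have a1 : AnalyticAt ℂ (fun s ↦ ctr r k l + s) s := analyticAt_const.add analyticAt_id
      exact (analyticAt_const.mul a1).add ((hg i _ (mem_ball_zero_iff.2 ((norm_exp_ctr hr k l
        (mem_closedBall_zero_iff.1 hs)).trans_lt (by linarith)))).fun_comp
        (f := fun s ↦ exp (ctr r k l + s)) a1.cexp')
  obtain ⟨N, hN⟩ : ∃ N, ∀ (k : ℕ) (l : ℤ), |l| ≤ 4 →
      Str (fun i s ↦ m i * (ctr r k l + s) + g i (exp (ctr r k l + s))) N := by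
    obtain ⟨δ, N0, hδ, h0⟩ := str_deep hm fun i ↦ hg i 0 (mem_ball_self hr)
    choose! N1 h1 using fun (q : ℕ × ℤ) (h : |q.2| ≤ 4) ↦ str_nd (han q.1 q.2) (hCn q.1 q.2 h)
    obtain ⟨k0, hk0⟩ := exists_nat_ge (Real.log r - Real.log δ)
    refine ⟨N0 + ∑ q ∈ Finset.range k0 ×ˢ Finset.Icc (-4 : ℤ) 4, N1 q, fun k l hl z hz ↦ ?_⟩
    rcases lt_or_ge k k0 with h | h
    · refine (h1 (k, l) hl z hz).mono (le_add_left ?_)
      exact Finset.single_le_sum (f := N1) (fun _ _ ↦ Nat.zero_le _) (Finset.mem_product.2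
        ⟨Finset.mem_range.2 h, Finset.mem_Icc.2 (abs_le.1 hl)⟩)
    · refine (h0 (ctr r k l) (fun s hs ↦ ?_) z hz).mono (Nat.le_add_right _ _)
      have a1 : (ctr r k l).re = Real.log r - 11 - k := by simp [ctr]
      have a2 : (k0 : ℝ) ≤ k := by exact_mod_cast h
      rw [norm_exp, ← Real.exp_log hδ, Real.exp_lt_exp, add_re, a1]
      linarith [re_le_norm s]
  have l0 := abs_nonneg (Real.log r)
  have m0 := norm_nonneg m
  obtain ⟨C, hC0, hC⟩ := count_K Cn N (K := ‖m‖ * (2 * |Real.log r| + L + 25) + K) hε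
    (le_add_of_nonneg_of_le (by positivity) hK)
  refine ⟨(|Real.log r| + L + 1) * 9 * C, by positivity, fun M Y S hM hY hYM hS ↦ ?_⟩
  have s1 := card_le_of_cover S (Finset.range ⌈(|Real.log r| + L) * Y⌉₊ ×ˢ Finset.Icc (-4 : ℤ) 4)
    (fun q w ↦ ‖w - ctr r q.1 q.2‖ ≤ 1) (Q := C * M ^ ε) (fun w hw ↦ by
      obtain ⟨b4, b5, b1, -⟩ := hS w hw
      have b2 := abs_le.1 ((abs_re_le_norm w).trans b1)
      rw [abs_le] at b5
      have c1 := Nat.floor_le (a := Real.log r - 11 - w.re + 1 / 2) (by linarith)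
      have c2 := Nat.lt_floor_add_one (Real.log r - 11 - w.re + 1 / 2)
      have c5 := abs_sub_round w.im
      generalize ⌊Real.log r - 11 - w.re + 1 / 2⌋₊ = k at c1 c2
      refine ⟨(k, round w.im), Finset.mem_product.2
        ⟨Finset.mem_range.2 (Nat.lt_ceil.2 ?_), Finset.mem_Icc.2 (abs_le.1 ?_)⟩, ?_⟩
      · nlinarith [le_abs_self (Real.log r)]
      · have h1 : |((round w.im : ℤ) : ℝ)| < 5 := by
          have := Real.pi_lt_four
          rw [abs_le] at c5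
          rw [abs_lt]
          constructor <;> linarith
        have h2 : |round w.im| < 5 := by exact_mod_cast h1
        exact Int.le_of_lt_add_one h2
      · refine (norm_le_abs_re_add_abs_im _).trans ?_
        have h1 : (w - ctr r k (round w.im)).re = w.re - (Real.log r - 11 - k) := by simp [ctr]
        have h2 : (w - ctr r k (round w.im)).im = w.im - round w.im := by simp [ctr]
        have h3 : |w.re - (Real.log r - 11 - k)| ≤ 1 / 2 := abs_le.2 ⟨by linarith, by linarith⟩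
        rw [h1, h2]
        linarith)
    fun q hq S' hS' ↦ by
      obtain ⟨k, l⟩ := q
      obtain ⟨q1, q2⟩ := Finset.mem_product.1 hq
      have hl : |l| ≤ 4 := abs_le.2 (Finset.mem_Icc.1 q2)
      have hk : (k : ℝ) < (|Real.log r| + L) * Y := Nat.lt_ceil.1 (Finset.mem_range.1 q1)
      refine card_le_of_param S' (fun s ↦ ctr r k l + s) (fun s ↦ ‖s‖ ≤ 1)
        (fun w hw ↦ ⟨w - ctr r k l, (hS' w hw).2, by ring⟩) fun S'' hS'' ↦ ?_
      refine hC M (fun i s ↦ m i * (ctr r k l + s) + g i (exp (ctr r k l + s))) S'' hM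
        (han k l) (fun i s hs ↦ ?_) (hCn k l hl) (hN k l hl) fun s hs ↦
          ⟨(hS'' s hs).1, (hS _ (hS' _ (hS'' s hs).2).1).2.2.2⟩
      · have b3 : |(l : ℝ)| ≤ 4 := by exact_mod_cast hl
        have b4 : ‖ctr r k l‖ ≤ |Real.log r| + 15 + k := by
          refine (norm_le_abs_re_add_abs_im _).trans ?_
          have h1 : (ctr r k l).re = Real.log r - 11 - k := by simp [ctr]
          have h2 : (ctr r k l).im = l := by simp [ctr]
          have h3 : |Real.log r - 11 - k| ≤ |Real.log r| + 11 + k := by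
            have : (0 : ℝ) ≤ k := Nat.cast_nonneg k
            rw [abs_le]
            constructor <;> linarith [le_abs_self (Real.log r), neg_abs_le (Real.log r)]
          rw [h1, h2]
          linarith
        have b5 : ‖ctr r k l + s‖ ≤ (2 * |Real.log r| + L + 25) * M :=
          (norm_add_le _ _).trans (by nlinarith [mul_le_mul_of_nonneg_left hYM (add_nonneg l0 hL)])
        have b6 := hb i _ (norm_exp_ctr hr k l hs)
        refine (norm_add_le _ _).trans ?_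
        rw [norm_mul, add_mul, mul_assoc]
        exact add_le_add (mul_le_mul (norm_le_pi_norm m i) b5 (norm_nonneg _) m0) (by nlinarith)
  have t1 : (Finset.Icc (-4 : ℤ) 4).card = 9 := by simp
  have t2 := (Nat.ceil_lt_add_one (a := (|Real.log r| + L) * Y) (by positivity)).le
  rw [Finset.card_product, Finset.card_range, t1] at s1
  push_cast at s1
  have t3 : 0 ≤ M ^ ε := by positivity
  calc _ ≤ (|Real.log r| + L + 1) * Y * 9 * (C * M ^ ε) := s1.trans (by gcongr; linarith)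
    _ = _ := by ring

/-- points that depend on the value of one chart -/
theorem count_cht (m : T3) (g : Fin 3 → ℂ → ℂ) {r C0 ε : ℝ} (hr : 0 < r)
    (hg : ∀ i, AnalyticOnNhd ℂ (g i) (ball 0 r))
    (hind : ∀ c : MvPolynomial (Fin 3) ℂ, (∀ w : ℂ, ‖exp w‖ < r →
      MvPolynomial.eval (cht m g w) c = 0) → c = 0) (hε : 0 < ε) (hC0 : 0 < C0) (c : ℝ) :
    ∃ C : ℝ, 0 ≤ C ∧ ∀ (M H : ℝ) (φ : T3 → Ch → ℂ) (S : Finset (Ch → ℂ)), 2 ≤ M →
      1 ≤ H → H ≤ M → (∀ x ∈ S, ∃ w, (‖exp w‖ ≤ r * Real.exp (-11) ∧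
        |w.im| ≤ π ∧ (m = 0 ∨ -w.re ≤ c + H) ∧ ∀ M', M ≤ M' → C0 ≤ M' → (cht m g w 2).im ≤ M' →
          Tw (M' ^ 9) (cht m g w)) ∧ φ (cht m g w) = x) →
      (S.card : ℝ) ≤ C * H * M ^ ε := by
  obtain ⟨K, hK, hb⟩ := exists_bd hr hg
  have l0 := abs_nonneg (Real.log r)
  have c0 := abs_nonneg c
  have m0 := norm_nonneg m
  obtain ⟨L, hL⟩ : ∃ L, L = |Real.log r| + |c| + 5 := ⟨_, rfl⟩
  have L0 : 0 ≤ L := by linarith
  obtain ⟨K', hK'⟩ : ∃ K', K' = ‖m‖ * L + K + C0 := ⟨_, rfl⟩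
  have k0 := mul_nonneg m0 L0
  have k1 : 1 ≤ K' := by linarith
  have e1 : r * Real.exp (-11) ≤ r / 20 := by
    have h1 : 20 ≤ Real.exp 11 := by
      have := Real.quadratic_le_exp_of_nonneg (show (0 : ℝ) ≤ 11 by norm_num)
      linarith
    rw [Real.exp_neg, ← div_eq_mul_inv]
    gcongr
  have e2 : ∀ (M : ℝ) (w : ℂ), 2 ≤ M → ‖exp w‖ ≤ r * Real.exp (-11) → ‖m 2 * w‖ ≤ ‖m‖ * L * M →
      (cht m g w 2).im ≤ K' * M := fun M w hM h1 h2 ↦ by
    have := hb 2 _ ((h1.trans e1).trans (by linarith))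
    refine (im_le_norm _).trans ((norm_add_le _ _).trans ?_)
    rw [hK']
    nlinarith
  by_cases hm : m = 0
  · subst hm
    have a5 : ∀ w, cht 0 g w = fun i ↦ g i (exp w) := fun w ↦ funext fun i ↦ by simp [cht]
    obtain ⟨C, h0, hC⟩ := count_reg g hr hg (fun c h ↦ hind c fun w hw ↦ a5 w ▸ h w hw) hε
    refine ⟨C * K' ^ ε, by positivity, fun M H φ S hM hH hHM hS ↦ ?_⟩
    refine (param_le S (fun u ↦ φ fun i ↦ g i u) (fun u ↦ ‖u‖ ≤ r / 20 ∧
      Tw ((K' * M) ^ 9) fun i ↦ g i u) (fun x hx ↦ ?_) fun S' hS' ↦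
        hC (K' * M) S' (by nlinarith) hS').trans ?_
    · obtain ⟨w, ⟨a1, -, -, a2⟩, a3⟩ := hS x hx
      have a4 := a2 (K' * M) (by nlinarith) (by nlinarith)
        (e2 M w hM a1 (by rw [Pi.zero_apply, zero_mul, norm_zero]; positivity))
      rw [a5] at a3 a4
      exact ⟨_, ⟨a1.trans e1, a4⟩, a3⟩
    · rw [Real.mul_rpow (by linarith) (by linarith), ← mul_assoc, mul_right_comm _ H]
      exact le_mul_of_one_le_right (by positivity) hH
  obtain ⟨C, h0, hC⟩ := count_log hm g hr hg hind hε L0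
  refine ⟨C * K' ^ ε, by positivity, fun M H φ S hM hH hHM hS ↦ ?_⟩
  refine (param_le S (fun w ↦ φ (cht m g w)) _ hS fun S' hS' ↦
    hC (K' * M) H S' (by nlinarith) hH (by nlinarith) fun w hw ↦ ?_).trans_eq ?_
  · obtain ⟨a1, a2, a3, a4⟩ := hS' w hw
    have a5 : w.re ≤ Real.log r - 11 := by
      rwa [norm_exp, ← Real.exp_log hr, ← Real.exp_add, Real.exp_le_exp, ← sub_eq_add_neg] at a1
    have a6 : ‖w‖ ≤ L * H := by
      have b1 : |w.re| ≤ |Real.log r| + |c| + H := abs_le.2 ⟨by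
        linarith [a3.resolve_left hm, le_abs_self c], by linarith [le_abs_self (Real.log r)]⟩
      refine (norm_le_abs_re_add_abs_im _).trans ?_
      rw [hL]
      nlinarith [Real.pi_lt_four]
    refine ⟨a5, a2, a6, a4 _ (by nlinarith) (by nlinarith) (e2 M w hM a1 ?_)⟩
    rw [norm_mul, mul_assoc]
    exact mul_le_mul (norm_le_pi_norm m 2) (a6.trans (by gcongr)) (norm_nonneg _) m0
  · rw [Real.mul_rpow (by linarith) (by linarith)]
    ring

end Pool.Agent.Lib.QM89
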