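import Mathlib

/-! Counting points with two singular relations, first part: linear algebra near a point. -/

open Finset Matrix

noncomputable section

namespace Pool.Agent.Lib.QM89

/-- pairing of an integral vector with a complex vector -/
def dt (p : Fin 5 → ℤ) (W : Fin 5 → ℂ) : ℂ := ∑ j, (p j : ℂ) * W j

theorem gram {k : ℕ} (hk : k ≤ 4) {M : ℝ} (hM : 1 ≤ M) (P : Fin k → Fin 5 → ℤ)
    (hI : LinearIndependent ℤ P) (hP : ∀ l i, |(P l i : ℝ)| ≤ M) :
    (of P * (of P)ᵀ).det ≠ 0 ∧ (∀ l l', |(((of P * (of P)ᵀ) l l' : ℤ) : ℝ)| ≤ 5 * M ^ 2) ∧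
      ∀ l l', |(((of P * (of P)ᵀ).adjugate l l' : ℤ) : ℝ)| ≤ 15000 * M ^ 8 := by
  have h2 : ∀ l l', |(((of P * (of P)ᵀ) l l' : ℤ) : ℝ)| ≤ 5 * M ^ 2 := fun l l' ↦ by
    simp only [mul_apply, of_apply, transpose_apply]
    push_cast
    refine (abs_sum_le_sum_abs _ _).trans ((sum_le_card_nsmul _ _ (M ^ 2) fun j _ ↦ ?_).trans ?_)
    · rw [abs_mul, sq]
      exact mul_le_mul (hP _ _) (hP _ _) (abs_nonneg _) (by linarith)
    · simp
  refine ⟨fun h ↦ ?_, h2, fun l l' ↦ ?_⟩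
  · obtain ⟨v, hv, h0⟩ := exists_mulVec_eq_zero_iff.2 h
    have h1 : (v ᵥ* of P) ⬝ᵥ (v ᵥ* of P) = 0 := by
      rw [← dotProduct_mulVec, ← mulVec_transpose, mulVec_mulVec, h0, dotProduct_zero]
    have h3 := dotProduct_self_eq_zero.1 h1
    refine hv (funext (Fintype.linearIndependent_iff.1 hI v (funext fun j ↦ ?_)))
    simpa [vecMul, dotProduct] using congrFun h3 j
  · have h5 : 1 ≤ 5 * M ^ 2 := by nlinarith
    rw [adjugate_apply, ← Int.cast_abs]
    have h3 := det_le (abv := AbsoluteValue.abs)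
      (A := ((of P * (of P)ᵀ).updateRow l' (Pi.single l 1)).map (Int.castRingHom ℝ))
      (x := 5 * M ^ 2) fun i j ↦ by
        simp only [map_apply, updateRow_apply, eq_intCast, AbsoluteValue.abs_apply]
        split_ifs
        · rw [Pi.single_apply]
          split_ifs
          · simpa using h5
          · simp only [Int.cast_zero, abs_zero]
            linarith
        · exact h2 _ _
    rw [← RingHom.mapMatrix_apply, ← RingHom.map_det, Fintype.card_fin] at h3
    simp only [eq_intCast, AbsoluteValue.abs_apply, nsmul_eq_mul] at h3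
    rw [Int.cast_abs]
    refine h3.trans ?_
    have h4 : (k.factorial : ℝ) ≤ 24 := by exact_mod_cast Nat.factorial_le hk
    calc _ ≤ 24 * (5 * M ^ 2) ^ 4 := by gcongr
      _ = _ := by ring

theorem dep {k j : ℕ} (hk : k ≤ 4) (h5 : 5 < k + j) {M : ℝ} (hM : 1000 ≤ M)
    (P : Fin k → Fin 5 → ℤ) (hI : LinearIndependent ℤ P) (hP : ∀ l i, |(P l i : ℝ)| ≤ M)
    (Z : Fin j → Fin 5 → ℂ) : ∃ a : Fin j → ℂ, ‖a‖ = 1 ∧
      ‖∑ i, a i • Z i‖ ≤ M ^ 11 * ‖fun l ↦ dt (P l) (∑ i, a i • Z i)‖ := by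
  obtain ⟨g1, -, g3⟩ := gram hk (by linarith) P hI hP
  set G := of P * (of P)ᵀ with hG
  have key : ∀ (b : Fin k → ℂ) (W : Fin 5 → ℂ), (∀ i, W i = ∑ l, b l * P l i) →
      ‖W‖ ≤ M ^ 11 * ‖fun l ↦ dt (P l) W‖ := by
    intro b W hW
    have a1 : ∀ l, dt (P l) W = ∑ l', (G l l' : ℂ) * b l' := fun l ↦ by
      simp only [dt, hW, hG, mul_apply, of_apply, transpose_apply, mul_sum, Int.cast_sum,
        Int.cast_mul, sum_mul]
      rw [sum_comm]
      exact sum_congr rfl fun _ _ ↦ sum_congr rfl fun _ _ ↦ by ring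
    have a2 : ∀ l, (G.det : ℂ) * b l = ∑ l', (G.adjugate l l' : ℂ) * dt (P l') W := fun l ↦ by
      simp only [a1, mul_sum, ← mul_assoc]
      rw [sum_comm]
      simp only [← sum_mul, ← Int.cast_mul, ← Int.cast_sum, ← mul_apply, adjugate_mul]
      rw [sum_eq_single l]
      · simp
      · intro l' _ h
        simp [one_apply, h.symm]
      · simp
    have a3 : ∀ l, ‖b l‖ ≤ 4 * (15000 * M ^ 8 * ‖fun l ↦ dt (P l) W‖) := fun l ↦ by
      have b1 : (1 : ℝ) ≤ ‖(G.det : ℂ)‖ := by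
        rw [Complex.norm_intCast]
        exact_mod_cast Int.one_le_abs g1
      refine (le_mul_of_one_le_left (norm_nonneg _) b1).trans ?_
      rw [← norm_mul, a2]
      refine (norm_sum_le _ _).trans ((sum_le_card_nsmul _ _
        (15000 * M ^ 8 * ‖fun l ↦ dt (P l) W‖) fun l' _ ↦ ?_).trans ?_)
      · rw [norm_mul, Complex.norm_intCast]
        exact mul_le_mul (g3 _ _) (norm_le_pi_norm (fun l ↦ dt (P l) W) l') (norm_nonneg _)
          (by positivity)
      · rw [card_univ, Fintype.card_fin, nsmul_eq_mul]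
        gcongr
        exact_mod_cast hk
    refine (pi_norm_le_iff_of_nonneg (by positivity)).2 fun i ↦ ?_
    rw [hW]
    refine (norm_sum_le _ _).trans ((sum_le_card_nsmul _ _
      (4 * (15000 * M ^ 8 * ‖fun l ↦ dt (P l) W‖) * M) fun l _ ↦ ?_).trans ?_)
    · rw [norm_mul, Complex.norm_intCast]
      exact mul_le_mul (a3 l) (hP _ _) (abs_nonneg _) (by positivity)
    · rw [card_univ, Fintype.card_fin, nsmul_eq_mul]
      have b2 : (k : ℝ) ≤ 4 := by exact_mod_cast hk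
      calc _ ≤ 4 * (4 * (15000 * M ^ 8 * ‖fun l ↦ dt (P l) W‖) * M) := by gcongr
        _ = 240000 * (M ^ 9 * ‖fun l ↦ dt (P l) W‖) := by ring
        _ ≤ M ^ 2 * (M ^ 9 * ‖fun l ↦ dt (P l) W‖) := by gcongr; nlinarith
        _ = _ := by ring
  obtain ⟨c, hc, x, hx⟩ := Fintype.not_linearIndependent_iff.1
    fun hl : LinearIndependent ℂ (Sum.elim (fun l i ↦ (P l i : ℂ)) Z) ↦ by
      have := hl.fintype_card_le_finrank
      simp at this
      omega
  rw [Fintype.sum_sum_type] at hc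
  simp only [Sum.elim_inl, Sum.elim_inr] at hc
  have hW : ∀ (t : ℂ) i, (∑ i, (t * c (Sum.inr i)) • Z i) i = ∑ l, -(t * c (Sum.inl l)) * P l i :=
    fun t i ↦ by
      have := congrFun hc i
      simp only [Pi.add_apply, Finset.sum_apply, Pi.smul_apply, smul_eq_mul, Pi.zero_apply] at this ⊢
      simp only [mul_assoc, neg_mul, sum_neg_distrib, ← mul_sum]
      linear_combination t * this
  have ha : (fun i ↦ c (Sum.inr i)) ≠ 0 := by
    intro h0
    have h1 : ∀ i, c (Sum.inr i) = 0 := congrFun h0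
    have h2 : (G.map (Int.castRingHom ℂ)) *ᵥ (fun l ↦ c (Sum.inl l)) = 0 := by
      funext l
      have h3 : ∀ i, ∑ l, c (Sum.inl l) * P l i = 0 := fun i ↦ by
        simpa [h1] using congrFun hc i
      simp only [mulVec, dotProduct, map_apply, hG, mul_apply, of_apply, transpose_apply,
        eq_intCast, Int.cast_sum, Int.cast_mul, sum_mul, Pi.zero_apply]
      rw [sum_comm]
      refine sum_eq_zero fun i _ ↦ ?_
      rw [← mul_zero (P l i : ℂ), ← h3 i, mul_sum]
      exact sum_congr rfl fun _ _ ↦ by ring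
    have h4 := eq_zero_of_mulVec_eq_zero (by
      rw [← RingHom.mapMatrix_apply, ← RingHom.map_det]
      simpa using g1) h2
    rcases x with l | i
    exacts [hx (congrFun h4 l), hx (h1 i)]
  have hn := norm_pos_iff.2 ha
  refine ⟨fun i ↦ ((‖fun i ↦ c (Sum.inr i)‖⁻¹ : ℝ) : ℂ) * c (Sum.inr i), ?_, key _ _ (hW _)⟩
  change ‖((‖fun i ↦ c (Sum.inr i)‖⁻¹ : ℝ) : ℂ) • fun i ↦ c (Sum.inr i)‖ = 1
  rw [norm_smul, Complex.norm_real, norm_inv, norm_norm, inv_mul_cancel₀ hn.ne']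

theorem coord {M : ℝ} (hM : 1000 ≤ M) (P : Fin 3 → Fin 5 → ℤ) (hI : LinearIndependent ℤ P)
    (hP : ∀ l i, |(P l i : ℝ)| ≤ M) (p : Fin 5 → ℤ) (hp : ∀ i, |(p i : ℝ)| ≤ M)
    (hd : ¬ LinearIndependent ℤ (Fin.cons p P : Fin 4 → Fin 5 → ℤ)) :
    ∃ (D : ℤ) (α : Fin 3 → ℤ), D ≠ 0 ∧ (∀ l, |(α l : ℝ)| ≤ M ^ 12) ∧
      ∀ i, D * p i = ∑ l, α l * P l i := by
  obtain ⟨g1, -, g3⟩ := gram (by norm_num) (by linarith) P hI hP
  set G := of P * (of P)ᵀ with hG
  obtain ⟨c, hc, x, hx⟩ := Fintype.not_linearIndependent_iff.1 hd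
  rw [Fin.sum_univ_succ] at hc
  simp only [Fin.cons_zero, Fin.cons_succ] at hc
  have c0 : c 0 ≠ 0 := fun h ↦ by
    rw [h, zero_smul, zero_add] at hc
    have := Fintype.linearIndependent_iff.1 hI _ hc
    exact hx (Fin.cases h this x)
  have a1 : c 0 • p = (fun l ↦ -c l.succ) ᵥ* of P := by
    funext i
    have := congrFun hc i
    simp only [Pi.add_apply, Finset.sum_apply, Pi.smul_apply, smul_eq_mul, Pi.zero_apply] at this
    simp only [vecMul, dotProduct, of_apply, Pi.smul_apply, smul_eq_mul, neg_mul, sum_neg_distrib]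
    linarith
  have a2 : c 0 • (G.adjugate *ᵥ (of P *ᵥ p)) = G.det • fun l ↦ -c l.succ := by
    rw [← mulVec_smul, ← mulVec_smul, a1, ← mulVec_transpose, mulVec_mulVec, mulVec_mulVec,
      Matrix.mul_assoc, ← hG, adjugate_mul, smul_mulVec, one_mulVec]
  refine ⟨G.det, G.adjugate *ᵥ (of P *ᵥ p), g1, fun l ↦ ?_, fun i ↦ mul_left_cancel₀ c0 ?_⟩
  · have b1 : ∀ l, |(((of P *ᵥ p) l : ℤ) : ℝ)| ≤ 5 * M ^ 2 := fun l ↦ by
      simp only [mulVec, dotProduct, of_apply]
      push_cast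
      refine (abs_sum_le_sum_abs _ _).trans ((sum_le_card_nsmul _ _ (M ^ 2) fun j _ ↦ ?_).trans ?_)
      · rw [abs_mul, sq]
        exact mul_le_mul (hP _ _) (hp _) (abs_nonneg _) (by linarith)
      · simp
    generalize of P *ᵥ p = u at b1
    simp only [mulVec, dotProduct]
    push_cast
    refine (abs_sum_le_sum_abs _ _).trans ((sum_le_card_nsmul _ _
      (15000 * M ^ 8 * (5 * M ^ 2)) fun j _ ↦ ?_).trans ?_)
    · rw [abs_mul]
      exact mul_le_mul (g3 _ _) (b1 _) (abs_nonneg _) (by positivity)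
    · rw [card_univ, Fintype.card_fin, nsmul_eq_mul]
      calc _ = 225000 * M ^ 10 := by push_cast; ring
        _ ≤ M ^ 2 * M ^ 10 := by gcongr; nlinarith
        _ = _ := by ring
  · have b1 := congrFun a1 i
    have b2 := congrFun a2
    simp only [Pi.smul_apply, smul_eq_mul] at b1 b2
    rw [mul_sum]
    simp only [← mul_assoc, b2]
    rw [mul_comm (c 0), mul_assoc, b1]
    simp only [vecMul, dotProduct, of_apply, mul_sum, mul_assoc]

end Pool.Agent.Lib.QM89
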