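import Pool.Agent.Lib.QM89.CA

/-! Counting points with two singular relations, second part: points close to each other whose
secants are almost parallel lie on three hypersurfaces. -/

open Finset Matrix Complex
open scoped ComplexConjugate

noncomputable section

namespace Pool.Agent.Lib.QM89

/-- the point of the quadric attached to a period matrix -/
def Xv (T : Fin 3 → ℂ) : Fin 5 → ℂ := ![T 0, T 1, T 2, T 1 ^ 2 - T 0 * T 2, 1]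

/-- its derivative -/
def dX (T v : Fin 3 → ℂ) : Fin 5 → ℂ :=
  ![v 0, v 1, v 2, 2 * T 1 * v 1 - T 0 * v 2 - T 2 * v 0, 0]

/-- the value of a singular relation -/
def ev (p : Fin 5 → ℤ) (T : Fin 3 → ℂ) : ℂ :=
  p 0 * T 0 + p 1 * T 1 + p 2 * T 2 + p 3 * (T 1 ^ 2 - T 0 * T 2) + p 4

theorem dt_X (p : Fin 5 → ℤ) (T : Fin 3 → ℂ) : dt p (Xv T) = ev p T := by
  simp [dt, Xv, ev, Fin.sum_univ_five]

theorem dt_bar (p : Fin 5 → ℤ) (T : Fin 3 → ℂ) : dt p (star (Xv T)) = conj (ev p T) := by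
  simp [dt, Xv, ev, Fin.sum_univ_five]

theorem dt_dX (p : Fin 5 → ℤ) (T v : Fin 3 → ℂ) : dt p (dX T v) =
    p 0 * v 0 + p 1 * v 1 + p 2 * v 2 + p 3 * (2 * T 1 * v 1 - T 0 * v 2 - T 2 * v 0) := by
  simp [dt, dX, Fin.sum_univ_five]

theorem dt_add (p : Fin 5 → ℤ) (a b : Fin 5 → ℂ) : dt p (a + b) = dt p a + dt p b := by
  simp [dt, mul_add, sum_add_distrib]

theorem dt_smul (p : Fin 5 → ℤ) (t : ℂ) (a : Fin 5 → ℂ) : dt p (t • a) = t * dt p a := by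
  simp [dt, mul_sum, mul_left_comm]

theorem low {M : ℝ} (hM : 1000 ≤ M) {T v : Fin 3 → ℂ} (hT : ‖T‖ ≤ M)
    (hd : 1 / 2 ≤ (T 0).im * (T 2).im - (T 1).im ^ 2) (a b c : ℂ) :
    ‖a‖ ≤ M ^ 3 * ‖a • Xv T + b • star (Xv T) + c • dX T v‖ ∧
    ‖b‖ ≤ M ^ 3 * ‖a • Xv T + b • star (Xv T) + c • dX T v‖ ∧
    ‖c‖ * ‖v‖ ≤ M ^ 5 * ‖a • Xv T + b • star (Xv T) + c • dX T v‖ := by
  set W := a • Xv T + b • star (Xv T) + c • dX T v with hW
  have w : ∀ i, ‖W i‖ ≤ ‖W‖ := norm_le_pi_norm W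
  have t : ∀ i, ‖T i‖ ≤ M := fun i ↦ (norm_le_pi_norm T i).trans hT
  have w0 := norm_nonneg W
  have e : ∀ i, W i = a * Xv T i + b * conj (Xv T i) + c * dX T v i := fun i ↦ rfl
  have e0 : W 0 = a * T 0 + b * conj (T 0) + c * v 0 := e 0
  have e1 : W 1 = a * T 1 + b * conj (T 1) + c * v 1 := e 1
  have e2 : W 2 = a * T 2 + b * conj (T 2) + c * v 2 := e 2
  have e3 : W 3 = a * (T 1 ^ 2 - T 0 * T 2) + b * (conj (T 1) ^ 2 - conj (T 0) * conj (T 2)) +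
      c * (2 * T 1 * v 1 - T 0 * v 2 - T 2 * v 0) := by rw [e]; simp [Xv, dX]
  have e4 : W 4 = a + b := by rw [e]; simp [Xv, dX]
  have e5 : b * ((4 * ((T 0).im * (T 2).im - (T 1).im ^ 2) : ℝ) : ℂ) =
      T 0 * W 2 + T 2 * W 0 + W 3 + (T 1 ^ 2 - T 0 * T 2) * W 4 - 2 * T 1 * W 1 := by
    have s0 := sub_conj (T 0)
    have s1 := sub_conj (T 1)
    have s2 := sub_conj (T 2)
    push_cast at s0 s1 s2 ⊢
    rw [e0, e1, e2, e3, e4]
    linear_combination (b * (T 2 - conj (T 2))) * s0 + (b * 2 * (T 0).im * I) * s2 -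
      b * (T 1 - conj (T 1) + 2 * (T 1).im * I) * s1 +
      (4 * b * ((T 0).im * (T 2).im - (T 1).im ^ 2)) * I_sq
  have n3 : ‖T 1 ^ 2 - T 0 * T 2‖ ≤ M ^ 2 + M * M := (norm_sub_le _ _).trans (by
    rw [norm_pow, norm_mul]
    gcongr <;> exact t _)
  have hb : ‖b‖ * 2 ≤ M ^ 3 * ‖W‖ := by
    have a1 : ‖b‖ * 2 ≤ ‖b * ((4 * ((T 0).im * (T 2).im - (T 1).im ^ 2) : ℝ) : ℂ)‖ := by
      rw [norm_mul, norm_real, Real.norm_of_nonneg (by linarith)]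
      gcongr
      linarith
    rw [e5] at a1
    refine a1.trans ((norm_sub_le _ _).trans ?_)
    have a2 : ‖T 0 * W 2 + T 2 * W 0 + W 3 + (T 1 ^ 2 - T 0 * T 2) * W 4‖ ≤
        M * ‖W‖ + M * ‖W‖ + ‖W‖ + (M ^ 2 + M * M) * ‖W‖ := by
      refine norm_add_le_of_le (norm_add_le_of_le (norm_add_le_of_le ?_ ?_) (w 3)) ?_ <;>
        rw [norm_mul] <;> gcongr <;> first | exact t _ | exact w _
    have a3 : ‖2 * T 1 * W 1‖ ≤ 2 * M * ‖W‖ := by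
      rw [norm_mul, norm_mul, Complex.norm_two]
      gcongr <;> first | exact t _ | exact w _
    have a4 : 4 * M + 1 + 2 * M ^ 2 ≤ M ^ 3 := by nlinarith
    nlinarith
  have m3 : 2 ≤ M ^ 3 := by nlinarith
  have ha : ‖a‖ ≤ M ^ 3 * ‖W‖ := by
    have a1 := norm_sub_le (W 4) b
    rw [e4, add_sub_cancel_right, ← e4] at a1
    nlinarith [w 4]
  have b0 := norm_nonneg b
  refine ⟨ha, by linarith, ?_⟩
  rw [← norm_smul]
  refine (pi_norm_le_iff_of_nonneg (by positivity)).2 fun i ↦ ?_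
  have e6 : (c • v) i = W (Fin.castLE (by norm_num) i) - a * T i - b * conj (T i) := by
    fin_cases i
    · change c * v 0 = W 0 - a * T 0 - b * conj (T 0)
      rw [e0]; ring
    · change c * v 1 = W 1 - a * T 1 - b * conj (T 1)
      rw [e1]; ring
    · change c * v 2 = W 2 - a * T 2 - b * conj (T 2)
      rw [e2]; ring
  rw [e6]
  refine (norm_sub_le_of_le (norm_sub_le_of_le (w _) (r₂ := M ^ 3 * ‖W‖ * M) ?_)
    (r₂ := M ^ 3 * ‖W‖ * M) ?_).trans ?_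
  · rw [norm_mul]
    exact mul_le_mul ha (t i) (norm_nonneg _) (by positivity)
  · rw [norm_mul, norm_conj]
    exact mul_le_mul (by linarith) (t i) (norm_nonneg _) (by positivity)
  · have a1 : 1 + 2 * M ^ 4 ≤ M ^ 5 := by nlinarith [pow_pos (show 0 < M by linarith) 4]
    nlinarith

theorem dX_le {M : ℝ} (hM : 1000 ≤ M) {p : Fin 5 → ℤ} (hp : ∀ i, |(p i : ℝ)| ≤ M)
    {T : Fin 3 → ℂ} (hT : ‖T‖ ≤ 2 * M) (v : Fin 3 → ℂ) : ‖dt p (dX T v)‖ ≤ M ^ 3 * ‖v‖ := by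
  have w : ∀ i, ‖v i‖ ≤ ‖v‖ := norm_le_pi_norm v
  have t : ∀ i, ‖T i‖ ≤ 2 * M := fun i ↦ (norm_le_pi_norm T i).trans hT
  have q : ∀ i, ‖(p i : ℂ)‖ ≤ M := fun i ↦ by rw [norm_intCast]; exact hp i
  have v0 := norm_nonneg v
  have a1 : ‖2 * T 1 * v 1 - T 0 * v 2 - T 2 * v 0‖ ≤
      2 * (2 * M) * ‖v‖ + 2 * M * ‖v‖ + 2 * M * ‖v‖ := by
    refine norm_sub_le_of_le (norm_sub_le_of_le ?_ ?_) ?_ <;>
      simp only [norm_mul, Complex.norm_two] <;> gcongr <;> first | exact t _ | exact w _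
  rw [dt_dX]
  refine (norm_add_le_of_le (norm_add_le_of_le (norm_add_le_of_le (r₁ := M * ‖v‖)
    (r₂ := M * ‖v‖) ?_ ?_) (r₂ := M * ‖v‖) ?_)
    (r₂ := M * (2 * (2 * M) * ‖v‖ + 2 * M * ‖v‖ + 2 * M * ‖v‖)) ?_).trans ?_
  · rw [norm_mul]; gcongr <;> first | exact q _ | exact w _
  · rw [norm_mul]; gcongr <;> first | exact q _ | exact w _
  · rw [norm_mul]; gcongr <;> first | exact q _ | exact w _
  · rw [norm_mul]; gcongr; exact q _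
  · have a2 : 3 * M + 8 * M ^ 2 ≤ M ^ 3 := by nlinarith
    nlinarith

theorem ev_sub (p : Fin 5 → ℤ) (T T' : Fin 3 → ℂ) :
    ev p T - ev p T' = dt p (dX ((1 / 2 : ℂ) • (T + T')) (T - T')) := by
  simp only [ev, dt_dX, Pi.smul_apply, Pi.add_apply, Pi.sub_apply, smul_eq_mul]
  ring

theorem ev_lip {M : ℝ} (hM : 1000 ≤ M) {p : Fin 5 → ℤ} (hp : ∀ i, |(p i : ℝ)| ≤ M)
    {T T' : Fin 3 → ℂ} (hT : ‖T‖ ≤ M) (hT' : ‖T'‖ ≤ M) :
    ‖ev p T - ev p T'‖ ≤ M ^ 3 * ‖T - T'‖ := by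
  rw [ev_sub]
  refine dX_le hM hp ?_ _
  rw [norm_smul]
  have := norm_add_le T T'
  simp only [one_div, norm_inv, Complex.norm_ofNat]
  linarith

theorem ev_par {M δ : ℝ} (hM : 1000 ≤ M) {p : Fin 5 → ℤ} (hp : ∀ i, |(p i : ℝ)| ≤ M)
    {T T' U v : Fin 3 → ℂ} {t : ℂ} (hU : ‖U‖ ≤ M) (h1 : ‖T - U‖ ≤ δ) (h2 : ‖T' - U‖ ≤ δ)
    (hδ : δ ≤ 1) (hv : ‖v‖ = 1) (h3 : ‖T - T' - t • v‖ ≤ δ * ‖t‖) :
    ‖ev p T - ev p T' - t * dt p (dX U v)‖ ≤ M ^ 4 * δ * ‖t‖ := by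
  have d0 : 0 ≤ δ := (norm_nonneg _).trans h1
  have t0 := norm_nonneg t
  have e : ev p T - ev p T' - t * dt p (dX U v) = dt p (dX U (T - T' - t • v)) +
      p 3 * (((T - U) 1 + (T' - U) 1) * (T - T') 1 - (((T - U) 0 + (T' - U) 0) * (T - T') 2 +
        ((T - U) 2 + (T' - U) 2) * (T - T') 0) / 2) := by
    simp only [ev, dt_dX, Pi.smul_apply, Pi.sub_apply, smul_eq_mul]
    ring
  have a1 : ‖T - T'‖ ≤ 2 * ‖t‖ := by
    have := norm_add_le (T - T' - t • v) (t • v)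
    rw [sub_add_cancel, norm_smul, hv] at this
    nlinarith
  have a2 : ∀ i j, ‖((T - U) i + (T' - U) i) * (T - T') j‖ ≤ (δ + δ) * (2 * ‖t‖) := fun i j ↦ by
    rw [norm_mul]
    exact mul_le_mul (norm_add_le_of_le ((norm_le_pi_norm _ i).trans h1)
      ((norm_le_pi_norm _ i).trans h2)) ((norm_le_pi_norm _ j).trans a1) (norm_nonneg _)
      (by linarith)
  rw [e]
  refine (norm_add_le_of_le ((dX_le hM hp (T := U) (by linarith) _).trans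
    (mul_le_mul_of_nonneg_left h3 (by positivity))) (r₂ := M * (8 * δ * ‖t‖)) ?_).trans ?_
  · rw [norm_mul, norm_intCast]
    refine mul_le_mul (hp 3) ((norm_sub_le _ _).trans ?_) (norm_nonneg _) (by linarith)
    rw [norm_div, Complex.norm_two]
    have := norm_add_le_of_le (a2 0 2) (a2 2 0)
    nlinarith [a2 1 1]
  · have a4 : 8 * M ≤ M ^ 3 := by nlinarith [mul_le_mul hM hM (by norm_num) (by linarith)]
    have a3 : M ^ 3 + 8 * M ≤ M ^ 4 := by nlinarith [pow_pos (show 0 < M by linarith) 3]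
    nlinarith [mul_nonneg d0 t0]

/-- determinant of three vectors -/
def d3 {R : Type} [CommRing R] (a b c : Fin 3 → R) : R :=
  a 0 * (b 1 * c 2 - b 2 * c 1) - a 1 * (b 0 * c 2 - b 2 * c 0) + a 2 * (b 0 * c 1 - b 1 * c 0)

theorem d3_le (a b c : Fin 3 → ℂ) : ‖d3 a b c‖ ≤ 6 * (‖a‖ * (‖b‖ * ‖c‖)) := by
  have h : ∀ i j k l m, ‖a i * (b j * c k - b l * c m)‖ ≤ 2 * (‖a‖ * (‖b‖ * ‖c‖)) := by
    intro i j k l m
    have h1 : ∀ j k, ‖b j * c k‖ ≤ ‖b‖ * ‖c‖ := fun j k ↦ by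
      rw [norm_mul]
      exact mul_le_mul (norm_le_pi_norm b j) (norm_le_pi_norm c k) (norm_nonneg _) (norm_nonneg _)
    rw [norm_mul]
    refine (mul_le_mul (norm_le_pi_norm a i) (norm_sub_le_of_le (h1 j k) (h1 l m)) (norm_nonneg _)
      (norm_nonneg _)).trans_eq ?_
    ring
  refine (norm_add_le_of_le (norm_sub_le_of_le (h _ _ _ _ _) (h _ _ _ _ _)) (h _ _ _ _ _)).trans_eq ?_
  ring

theorem d3_small {a b c w : Fin 3 → ℂ} {ε : ℝ} {t t' : ℂ} (hε : ε ≤ 1 / 2) (hab : ‖a‖ ≤ ‖b‖)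
    (hac : ‖a‖ ≤ ‖c‖) (h1 : ‖b - a - t • w‖ ≤ ε * ‖t • w‖) (h2 : ‖c - a - t' • w‖ ≤ ε * ‖t' • w‖)
    (h0 : 0 ≤ ε) : ‖d3 a b c‖ ≤ 300 * ε * (‖a‖ * (‖b‖ * ‖c‖)) := by
  have e : d3 a b c = d3 a (t • w) (c - a - t' • w) + d3 a (b - a - t • w) (t' • w) +
      d3 a (b - a - t • w) (c - a - t' • w) := by
    simp only [d3, Pi.smul_apply, Pi.sub_apply, smul_eq_mul]
    ring
  have key : ∀ {b u : Fin 3 → ℂ}, ‖a‖ ≤ ‖b‖ → ‖b - a - u‖ ≤ ε * ‖u‖ → ‖u‖ ≤ 4 * ‖b‖ := by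
    intro b u h h'
    have a1 := norm_sub_le (b - a) (b - a - u)
    rw [sub_sub_cancel] at a1
    nlinarith [norm_sub_le b a, norm_nonneg u]
  have k1 := key hab h1
  have k2 := key hac h2
  have b0 := norm_nonneg b
  have c0 := norm_nonneg c
  have k3 : ‖b - a - t • w‖ ≤ ε * (4 * ‖b‖) := h1.trans (by gcongr)
  have k4 : ‖c - a - t' • w‖ ≤ ε * (4 * ‖c‖) := h2.trans (by gcongr)
  have k5 : ‖c - a - t' • w‖ ≤ 2 * ‖c‖ := by nlinarith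
  rw [e]
  refine (norm_add_le_of_le (norm_add_le_of_le (d3_le _ _ _) (d3_le _ _ _)) (d3_le _ _ _)).trans ?_
  calc _ ≤ 6 * (‖a‖ * (4 * ‖b‖ * (ε * (4 * ‖c‖)))) + 6 * (‖a‖ * (ε * (4 * ‖b‖) * (4 * ‖c‖))) +
        6 * (‖a‖ * (ε * (4 * ‖b‖) * (2 * ‖c‖))) := by gcongr
    _ = 240 * ε * (‖a‖ * (‖b‖ * ‖c‖)) := by ring
    _ ≤ _ := by gcongr; norm_num

theorem d3_zero {h : Fin 3 → Fin 3 → ℂ} {l : Fin 3 → ℂ} {ν : Fin 3 → Fin 3 → ℤ} {w : Fin 3 → ℂ}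
    {ε H : ℝ} (h0 : 0 ≤ ε) (hε : ε ≤ 1 / 2) (hH : 300 * ε * H ^ 3 < 1)
    (hl : ∀ i, l i ≠ 0) (hh : ∀ i j, h i j = l i * ν i j) (hν : ∀ i j, |(ν i j : ℝ)| ≤ H)
    (hp : ∀ i i', ∃ t : ℂ, ‖h i - h i' - t • w‖ ≤ ε * ‖t • w‖) : d3 (ν 0) (ν 1) (ν 2) = 0 := by
  have H0 : 0 ≤ H := (abs_nonneg _).trans (hν 0 0)
  have a1 : ‖d3 (h 0) (h 1) (h 2)‖ ≤ 300 * ε * (‖h 0‖ * (‖h 1‖ * ‖h 2‖)) := by
    obtain ⟨i, -, hi⟩ := exists_min_image univ (fun i ↦ ‖h i‖) univ_nonempty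
    choose t ht using hp
    have b := fun j k ↦ d3_small hε (hi j (mem_univ _)) (hi k (mem_univ _)) (ht j i) (ht k i) h0
    fin_cases i
    · exact b 1 2
    · have e : d3 (h 0) (h 1) (h 2) = d3 (h 1) (h 2) (h 0) := by simp only [d3]; ring
      rw [e]
      exact (b 2 0).trans_eq (by simp only [Fin.mk_one]; ring)
    · have e : d3 (h 0) (h 1) (h 2) = d3 (h 2) (h 0) (h 1) := by simp only [d3]; ring
      rw [e]
      exact (b 0 1).trans_eq (by simp only [Fin.reduceFinMk]; ring)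
  have a2 : ∀ i, ‖h i‖ ≤ ‖l i‖ * H := fun i ↦
    (pi_norm_le_iff_of_nonneg (by positivity)).2 fun j ↦ by
      rw [hh, norm_mul, norm_intCast]
      gcongr
      exact hν i j
  have a3 : d3 (h 0) (h 1) (h 2) = l 0 * l 1 * l 2 * (d3 (ν 0) (ν 1) (ν 2) : ℤ) := by
    simp only [d3, hh]
    push_cast
    ring
  have a4 : 0 < ‖l 0‖ * ‖l 1‖ * ‖l 2‖ :=
    mul_pos (mul_pos (norm_pos_iff.2 (hl 0)) (norm_pos_iff.2 (hl 1))) (norm_pos_iff.2 (hl 2))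
  have a5 : ‖l 0‖ * ‖l 1‖ * ‖l 2‖ * |((d3 (ν 0) (ν 1) (ν 2) : ℤ) : ℝ)| <
      ‖l 0‖ * ‖l 1‖ * ‖l 2‖ * 1 := by
    rw [a3, norm_mul, norm_mul, norm_mul, norm_intCast] at a1
    refine a1.trans_lt ?_
    calc _ ≤ 300 * ε * (‖l 0‖ * H * (‖l 1‖ * H * (‖l 2‖ * H))) := by gcongr <;> exact a2 _
      _ = ‖l 0‖ * ‖l 1‖ * ‖l 2‖ * (300 * ε * H ^ 3) := by ring
      _ < _ := by gcongr
  exact Int.abs_lt_one_iff.1 (by exact_mod_cast lt_of_mul_lt_mul_left a5 a4.le)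

/-- two independent singular relations of height at most `M` at a point which is not deep -/
def Tw (M : ℝ) (T : Fin 3 → ℂ) : Prop :=
  1 / 2 ≤ (T 0).im * (T 2).im - (T 1).im ^ 2 ∧ ∃ p : Fin 2 → Fin 5 → ℤ, LinearIndependent ℤ p ∧
    ∀ l, (∀ i, |(p l i : ℝ)| ≤ M) ∧ ev (p l) T = 0

theorem ev_comb {k : ℕ} {D : ℤ} {p : Fin 5 → ℤ} {α : Fin k → ℤ} {P : Fin k → Fin 5 → ℤ}
    (h : ∀ i, D * p i = ∑ l, α l * P l i) (T : Fin 3 → ℂ) :
    D * ev p T = ∑ l, α l * ev (P l) T := by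
  have h' : ∀ i, (D : ℂ) * p i = ∑ l, (α l : ℂ) * P l i := fun i ↦ by exact_mod_cast h i
  simp only [← dt_X, dt, mul_sum, ← mul_assoc, h', sum_mul]
  rw [sum_comm]

theorem normal {M : ℝ} (hM : 1000 ≤ M) (P : Fin 3 → Fin 5 → ℤ) (hI : LinearIndependent ℤ P)
    (hP : ∀ l i, |(P l i : ℝ)| ≤ M) {T : Fin 3 → ℂ} {p : Fin 2 → Fin 5 → ℤ}
    (h1 : LinearIndependent ℤ p) (h2 : ∀ l, (∀ i, |(p l i : ℝ)| ≤ M) ∧ ev (p l) T = 0)
    (hd : ∀ l, ¬ LinearIndependent ℤ (Fin.cons (p l) P : Fin 4 → Fin 5 → ℤ)) :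
    ∃ (t : ℂ) (ν : Fin 3 → ℤ), (∀ j, |(ν j : ℝ)| ≤ M ^ 25) ∧ ∀ j, ev (P j) T = t * ν j := by
  obtain ⟨D, α, d0, a1, a2⟩ := coord hM P hI hP _ (h2 0).1 (hd 0)
  obtain ⟨E, β, e0, b1, b2⟩ := coord hM P hI hP _ (h2 1).1 (hd 1)
  have c1 := ev_comb a2 T
  have c2 := ev_comb b2 T
  rw [(h2 _).2, mul_zero, Fin.sum_univ_three] at c1 c2
  have n1 : ∀ i j, |((α i * β j - α j * β i : ℤ) : ℝ)| ≤ M ^ 25 := fun i j ↦ by
    push_cast
    refine (abs_sub _ _).trans ?_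
    rw [abs_mul, abs_mul]
    calc _ ≤ M ^ 12 * M ^ 12 + M ^ 12 * M ^ 12 := by gcongr <;> first | exact a1 _ | exact b1 _
      _ = 2 * M ^ 24 := by ring
      _ ≤ M * M ^ 24 := by gcongr; linarith
      _ = _ := by ring
  have hν : ∀ j, |((![α 1 * β 2 - α 2 * β 1, α 2 * β 0 - α 0 * β 2, α 0 * β 1 - α 1 * β 0] j : ℤ) :
      ℝ)| ≤ M ^ 25 := fun j ↦ by
    fin_cases j <;> exact n1 _ _
  by_cases z0 : α 1 * β 2 - α 2 * β 1 = 0
  · by_cases z1 : α 2 * β 0 - α 0 * β 2 = 0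
    · by_cases z2 : α 0 * β 1 - α 1 * β 0 = 0
      · exfalso
        have f1 : ∀ j, α j = 0 := fun j ↦ by
          have := Fintype.linearIndependent_iff.1 h1 ![-(β j * D), α j * E] (by
            funext i
            simp only [Fin.sum_univ_two, Pi.add_apply, Pi.smul_apply, smul_eq_mul, cons_val_zero,
              cons_val_one, Pi.zero_apply]
            rw [neg_mul, mul_assoc, mul_assoc, a2, b2, Fin.sum_univ_three, Fin.sum_univ_three]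
            fin_cases j
            · change -(β 0 * _) + α 0 * _ = 0
              linear_combination P 1 i * z2 - P 2 i * z1
            · change -(β 1 * _) + α 1 * _ = 0
              linear_combination P 2 i * z0 - P 0 i * z2
            · change -(β 2 * _) + α 2 * _ = 0
              linear_combination P 0 i * z1 - P 1 i * z0) 1
          exact (mul_eq_zero.1 this).resolve_right e0
        refine h1.ne_zero 0 (funext fun i ↦ (mul_eq_zero.1 ?_).resolve_left d0)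
        simp [a2, f1]
      · have z : ((α 0 * β 1 - α 1 * β 0 : ℤ) : ℂ) ≠ 0 := by exact_mod_cast z2
        refine ⟨ev (P 2) T / (α 0 * β 1 - α 1 * β 0 : ℤ), _, hν, fun j ↦ ?_⟩
        rw [div_mul_eq_mul_div, eq_div_iff z]
        fin_cases j
        · change ev (P 0) T * _ = _ * ((α 1 * β 2 - α 2 * β 1 : ℤ) : ℂ)
          push_cast
          linear_combination α 1 * c2 - β 1 * c1
        · change ev (P 1) T * _ = _ * ((α 2 * β 0 - α 0 * β 2 : ℤ) : ℂ)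
          push_cast
          linear_combination β 0 * c1 - α 0 * c2
        · rfl
    · have z : ((α 2 * β 0 - α 0 * β 2 : ℤ) : ℂ) ≠ 0 := by exact_mod_cast z1
      refine ⟨ev (P 1) T / (α 2 * β 0 - α 0 * β 2 : ℤ), _, hν, fun j ↦ ?_⟩
      rw [div_mul_eq_mul_div, eq_div_iff z]
      fin_cases j
      · change ev (P 0) T * _ = _ * ((α 1 * β 2 - α 2 * β 1 : ℤ) : ℂ)
        push_cast
        linear_combination β 2 * c1 - α 2 * c2
      · rfl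
      · change ev (P 2) T * _ = _ * ((α 0 * β 1 - α 1 * β 0 : ℤ) : ℂ)
        push_cast
        linear_combination α 0 * c2 - β 0 * c1
  · have z : ((α 1 * β 2 - α 2 * β 1 : ℤ) : ℂ) ≠ 0 := by exact_mod_cast z0
    refine ⟨ev (P 0) T / (α 1 * β 2 - α 2 * β 1 : ℤ), _, hν, fun j ↦ ?_⟩
    rw [div_mul_eq_mul_div, eq_div_iff z]
    fin_cases j
    · rfl
    · change ev (P 1) T * _ = _ * ((α 2 * β 0 - α 0 * β 2 : ℤ) : ℂ)
      push_cast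
      linear_combination α 2 * c2 - β 2 * c1
    · change ev (P 2) T * _ = _ * ((α 0 * β 1 - α 1 * β 0 : ℤ) : ℂ)
      push_cast
      linear_combination β 1 * c1 - α 1 * c2

theorem tri {M : ℝ} (hM : 1000 ≤ M) {α : Type} (S : Set α) (T : α → Fin 3 → ℂ) {v : Fin 3 → ℂ}
    (hv : ‖v‖ = 1) (h1 : ∀ s ∈ S, ‖T s‖ ≤ M ∧ Tw M (T s))
    (h2 : ∀ s ∈ S, ∀ s' ∈ S, ‖T s - T s'‖ ≤ (M ^ 98)⁻¹ ∧
      ∃ t : ℂ, ‖T s - T s' - t • v‖ ≤ (M ^ 98)⁻¹ * ‖t‖) :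
    ∃ p : Fin 3 → Fin 5 → ℤ, (∀ l, p l ≠ 0) ∧ ∀ s ∈ S, ∃ l, ev (p l) (T s) = 0 := by
  have M0 : 0 < M := by linarith
  have M1 : 1 ≤ M := by linarith
  choose! q q1 q2 using fun s hs ↦ (h1 s hs).2.2
  rcases S.eq_empty_or_nonempty with rfl | ⟨s1, m1⟩
  · exact ⟨fun _ _ ↦ 1, fun _ h ↦ one_ne_zero (congrFun h 0), by simp⟩
  have n1 := (q1 s1 m1).ne_zero 0
  by_cases c1 : ∀ s ∈ S, ev (q s1 0) (T s) = 0
  · exact ⟨fun _ ↦ q s1 0, fun _ ↦ n1, fun s hs ↦ ⟨0, c1 s hs⟩⟩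
  push Not at c1
  obtain ⟨s2, m2, c1⟩ := c1
  have n2 := (q1 s2 m2).ne_zero 0
  by_cases c2 : ∀ s ∈ S, ev (q s1 0) (T s) = 0 ∨ ev (q s2 0) (T s) = 0
  · refine ⟨![q s1 0, q s2 0, q s2 0], fun l ↦ by fin_cases l <;> assumption, fun s hs ↦ ?_⟩
    exact (c2 s hs).elim (fun h ↦ ⟨0, h⟩) fun h ↦ ⟨1, h⟩
  push Not at c2
  obtain ⟨s3, m3, c2, c3⟩ := c2
  set P : Fin 3 → Fin 5 → ℤ := Fin.cons (q s1 0) (q s2) with hP
  have P0 : P 0 = q s1 0 := rfl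
  have P1 : P 1 = q s2 0 := rfl
  have P2 : P 2 = q s2 1 := rfl
  have hI : LinearIndependent ℤ P := Fintype.linearIndependent_iff.2 fun c hc ↦ by
    have a1 := ev_comb (D := 0) (p := 0) (α := c) (P := P)
      (fun i ↦ by simpa using (congrFun hc i).symm) (T s2)
    rw [Fin.sum_univ_three, P0, P1, P2, (q2 s2 m2 0).2, (q2 s2 m2 1).2] at a1
    have a2 : c 0 = 0 := by simpa [c1] using a1
    rw [Fin.sum_univ_succ, a2, zero_smul, zero_add] at hc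
    exact Fin.cases a2 (Fintype.linearIndependent_iff.1 (q1 s2 m2) _ hc)
  have hB : ∀ l i, |(P l i : ℝ)| ≤ M := Fin.cases (q2 s1 m1 0).1 fun l ↦ (q2 s2 m2 l).1
  have sm : ∀ s ∈ S, ∀ l, ‖ev (q s l) (T s2)‖ ≤ (M ^ 95)⁻¹ := fun s hs l ↦ by
    have := ev_lip hM (q2 s hs l).1 (h1 s2 m2).1 (h1 s hs).1
    rw [(q2 s hs l).2, sub_zero] at this
    refine this.trans ((mul_le_mul_of_nonneg_left (h2 s2 m2 s hs).1 (by positivity)).trans_eq ?_)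
    field_simp
  have sP : ∀ l, ‖ev (P l) (T s2)‖ ≤ (M ^ 95)⁻¹ := Fin.cases (sm s1 m1 0) (sm s2 m2)
  have lo : ∀ {k : ℕ} (Q : Fin k → Fin 5 → ℤ), (∀ l, ‖ev (Q l) (T s2)‖ ≤ (M ^ 95)⁻¹) →
      ∀ a b c : ℂ, ‖a‖ ≤ 1 → ‖b‖ ≤ 1 →
      ‖fun l ↦ dt (Q l) (a • Xv (T s2) + b • star (Xv (T s2)) + c • dX (T s2) v)‖ ≤
        2 * (M ^ 95)⁻¹ + ‖c‖ * ‖fun l ↦ dt (Q l) (dX (T s2) v)‖ := by
    intro k Q hQ a b c ha hb
    refine (pi_norm_le_iff_of_nonneg (by positivity)).2 fun l ↦ ?_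
    rw [dt_add, dt_add, dt_smul, dt_smul, dt_smul, dt_X, dt_bar, two_mul]
    refine norm_add_le_of_le (norm_add_le_of_le ?_ ?_) ?_
    · rw [norm_mul]
      exact (mul_le_of_le_one_left (norm_nonneg _) ha).trans (hQ l)
    · rw [norm_mul, norm_conj]
      exact (mul_le_of_le_one_left (norm_nonneg _) hb).trans (hQ l)
    · rw [norm_mul]
      gcongr
      exact norm_le_pi_norm (fun l ↦ dt (Q l) (dX (T s2) v)) l
  have p35 : M ^ 3 ≤ M ^ 5 := pow_le_pow_right₀ M1 (by norm_num)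
  have sm2 : M ^ 5 * (M ^ 11 * (2 * (M ^ 95)⁻¹)) ≤ 1 / 2 := by
    have : (1000 : ℝ) ^ 1 ≤ M ^ 79 :=
      (pow_le_pow_left₀ (by norm_num) hM 1).trans (pow_le_pow_right₀ M1 (by norm_num))
    rw [show M ^ 5 * (M ^ 11 * (2 * (M ^ 95)⁻¹)) = 2 / M ^ 79 by field_simp,
      div_le_iff₀ (by positivity)]
    linarith
  have hd : ∀ s ∈ S, ∀ l, ¬ LinearIndependent ℤ (Fin.cons (q s l) P : Fin 4 → Fin 5 → ℤ) := by
    intro s hs l h
    obtain ⟨a, a1, a2⟩ := dep le_rfl (j := 2) (by norm_num) hM _ h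
      (Fin.cases (q2 s hs l).1 hB) ![Xv (T s2), star (Xv (T s2))]
    have e : ∑ i, a i • ![Xv (T s2), star (Xv (T s2))] i =
        a 0 • Xv (T s2) + a 1 • star (Xv (T s2)) + (0 : ℂ) • dX (T s2) v := by
      simp [Fin.sum_univ_two]
    rw [e] at a2
    have a3 := lo (Fin.cons (q s l) P) (Fin.cases (sm s hs l) sP) (a 0) (a 1) 0
      ((norm_le_pi_norm a 0).trans a1.le) ((norm_le_pi_norm a 1).trans a1.le)
    obtain ⟨b1, b2, -⟩ := low hM (v := v) (h1 s2 m2).1 (h1 s2 m2).2.1 (a 0) (a 1) 0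
    rw [norm_zero, zero_mul, add_zero] at a3
    generalize ‖a 0 • Xv (T s2) + a 1 • star (Xv (T s2)) + (0 : ℂ) • dX (T s2) v‖ = W at a2 b1 b2
    have a4 : M ^ 3 * W ≤ 1 / 2 := by
      refine le_trans ?_ sm2
      exact mul_le_mul p35 (a2.trans (by gcongr)) (nonneg_of_mul_nonneg_right
        ((norm_nonneg _).trans b1) (by positivity)) (by positivity)
    have a5 : ‖a‖ ≤ 1 / 2 := (pi_norm_le_iff_of_nonneg (by norm_num)).2 fun i ↦ by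
      fin_cases i
      exacts [b1.trans a4, b2.trans a4]
    linarith
  set w : Fin 3 → ℂ := fun l ↦ dt (P l) (dX (T s2) v) with hw
  have hwl : 1 ≤ 2 * M ^ 16 * ‖w‖ := by
    obtain ⟨a, a1, a2⟩ := dep (by norm_num) (j := 3) (by norm_num) hM _ hI hB
      ![Xv (T s2), star (Xv (T s2)), dX (T s2) v]
    have e : ∑ i, a i • ![Xv (T s2), star (Xv (T s2)), dX (T s2) v] i =
        a 0 • Xv (T s2) + a 1 • star (Xv (T s2)) + a 2 • dX (T s2) v := by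
      simp [Fin.sum_univ_three]
    rw [e] at a2
    have a3 := lo P sP (a 0) (a 1) (a 2)
      ((norm_le_pi_norm a 0).trans a1.le) ((norm_le_pi_norm a 1).trans a1.le)
    obtain ⟨b1, b2, b3⟩ := low hM (v := v) (h1 s2 m2).1 (h1 s2 m2).2.1 (a 0) (a 1) (a 2)
    rw [hv, mul_one] at b3
    have w0 := norm_nonneg (a 0 • Xv (T s2) + a 1 • star (Xv (T s2)) + a 2 • dX (T s2) v)
    generalize ‖a 0 • Xv (T s2) + a 1 • star (Xv (T s2)) + a 2 • dX (T s2) v‖ = W at a2 b1 b2 b3 w0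
    have a5 : ‖a‖ ≤ M ^ 5 * W := (pi_norm_le_iff_of_nonneg (by positivity)).2 fun i ↦ by
      fin_cases i
      exacts [b1.trans (by gcongr), b2.trans (by gcongr), b3]
    have a6 : ‖a 2‖ * ‖w‖ ≤ ‖w‖ :=
      mul_le_of_le_one_left (norm_nonneg _) ((norm_le_pi_norm a 2).trans a1.le)
    have a7 : M ^ 5 * W ≤ M ^ 5 * (M ^ 11 * (2 * (M ^ 95)⁻¹ + ‖w‖)) := by
      gcongr
      exact a2.trans (by gcongr; linarith)
    have a8 : M ^ 5 * (M ^ 11 * (2 * (M ^ 95)⁻¹ + ‖w‖)) =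
      M ^ 5 * (M ^ 11 * (2 * (M ^ 95)⁻¹)) + M ^ 16 * ‖w‖ := by ring
    linarith
  choose! t ν k1 k2 using fun s hs ↦ normal hM P hI hB (q1 s hs) (q2 s hs) (hd s hs)
  have tn : ∀ s ∈ S, ev (q s1 0) (T s) ≠ 0 → t s ≠ 0 := fun s hs h h0 ↦
    h (by rw [← P0, k2 s hs, h0, zero_mul])
  have n3 : ν s3 1 ≠ 0 := fun h ↦ c3 (by rw [← P1, k2 s3 m3, h, Int.cast_zero, mul_zero])
  have par : ∀ s ∈ S, ∀ s' ∈ S, ∃ u : ℂ, ‖(fun j ↦ ev (P j) (T s)) - (fun j ↦ ev (P j) (T s')) -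
      u • w‖ ≤ 2 * (M ^ 78)⁻¹ * ‖u • w‖ := fun s hs s' hs' ↦ by
    obtain ⟨u, hu⟩ := (h2 s hs s' hs').2
    refine ⟨u, (pi_norm_le_iff_of_nonneg (by positivity)).2 fun j ↦ ?_⟩
    refine (ev_par hM (hB j) (h1 s2 m2).1 (h2 s hs s2 m2).1 (h2 s' hs' s2 m2).1
      (inv_le_one_of_one_le₀ (one_le_pow₀ M1)) hv hu).trans ?_
    rw [norm_smul]
    calc _ ≤ M ^ 4 * (M ^ 98)⁻¹ * ‖u‖ * (2 * M ^ 16 * ‖w‖) :=
          le_mul_of_one_le_right (by positivity) hwl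
      _ = _ := by field_simp
  refine ⟨![q s1 0, q s2 0, fun i ↦ ∑ l, ![0, -ν s3 2, ν s3 1] l * P l i], fun l ↦ ?_,
    fun s hs ↦ ?_⟩
  · fin_cases l
    exacts [n1, n2, fun h ↦ n3 (Fintype.linearIndependent_iff.1 hI ![0, -ν s3 2, ν s3 1]
      (funext fun i ↦ by simpa using congrFun h i) 2)]
  by_cases c4 : ev (q s1 0) (T s) = 0
  · exact ⟨0, c4⟩
  refine ⟨2, ?_⟩
  have a1 := d3_zero (h := fun i j ↦ ev (P j) (T (![s2, s3, s] i)))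
    (l := ![ev (q s1 0) (T s2), t s3, t s]) (ν := ![![1, 0, 0], ν s3, ν s]) (w := w)
    (ε := 2 * (M ^ 78)⁻¹) (H := M ^ 25) (by positivity) (by
      have : (1000 : ℝ) ^ 1 ≤ M ^ 78 :=
        (pow_le_pow_left₀ (by norm_num) hM 1).trans (pow_le_pow_right₀ M1 (by norm_num))
      rw [← div_eq_mul_inv, div_le_iff₀ (by positivity)]
      linarith) (by
      have : (1000 : ℝ) ^ 1 ≤ M ^ 3 :=
        (pow_le_pow_left₀ (by norm_num) hM 1).trans (pow_le_pow_right₀ M1 (by norm_num))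
      rw [show 300 * (2 * (M ^ 78)⁻¹) * (M ^ 25) ^ 3 = 600 / M ^ 3 by field_simp; norm_num,
        div_lt_one (by positivity)]
      linarith)
    (fun i ↦ by fin_cases i; exacts [c1, tn s3 m3 c2, tn s hs c4])
    (fun i j ↦ by
      fin_cases i
      · fin_cases j
        · exact (mul_one _).symm.trans (by simp [P0])
        · exact (q2 s2 m2 0).2.trans (by simp)
        · exact (q2 s2 m2 1).2.trans (by simp)
      exacts [k2 s3 m3 j, k2 s hs j])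
    (fun i j ↦ by
      fin_cases i
      · fin_cases j <;> simp [one_le_pow₀ M1, M0.le]
      exacts [k1 s3 m3 j, k1 s hs j])
    fun i i' ↦ par _ (by fin_cases i <;> assumption) _ (by fin_cases i' <;> assumption)
  have a2 := ev_comb (D := 1) (p := fun i ↦ ∑ l, ![0, -ν s3 2, ν s3 1] l * P l i)
    (α := ![0, -ν s3 2, ν s3 1]) (P := P) (fun i ↦ one_mul _) (T s)
  have a3 : (ν s3 1 : ℂ) * ν s 2 - ν s3 2 * ν s 1 = 0 := by
    have : ν s3 1 * ν s 2 - ν s3 2 * ν s 1 = 0 := by simpa [d3] using a1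
    exact_mod_cast this
  rw [Int.cast_one, one_mul, Fin.sum_univ_three, k2 s hs, k2 s hs, k2 s hs] at a2
  refine a2.trans ?_
  simp only [cons_val_zero, cons_val_one, Matrix.cons_val, Int.cast_zero, Int.cast_neg]
  linear_combination t s * a3

end Pool.Agent.Lib.QM89
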