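import Pool.Agent.Lib.QM89.CB
import Pool.Agent.Lib.ZP3.Tiny2

/-! Counting points with two singular relations, third part: very small discs. -/

open Finset Complex Metric Filter Topology

noncomputable section

namespace Pool.Agent.Lib.QM89

open Pool.Agent.Lib.ZP3

theorem sector {n N : ℕ} (hn : n ≤ N) {u u' : ℂ} (h : ⌊u.arg * N⌋ = ⌊u'.arg * N⌋) :
    max ‖u‖ ‖u'‖ ^ n * ‖u - u'‖ ≤ 2 * ‖u ^ (n + 1) - u' ^ (n + 1)‖ := by
  have h1 := Int.abs_sub_lt_one_of_floor_eq_floor h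
  rw [← sub_mul, abs_mul, Nat.abs_cast] at h1
  rw [← geom_sum₂_mul, norm_mul, ← mul_assoc]
  refine mul_le_mul_of_nonneg_right ?_ (norm_nonneg _)
  obtain ⟨θ, hθ⟩ : ∃ θ, u.arg - u'.arg = θ := ⟨_, rfl⟩
  rw [hθ] at h1
  have e1 : u = ‖u‖ * (exp (u'.arg * I) * exp (θ * I)) := by
    rw [← exp_add, ← add_mul, ← ofReal_add, ← hθ, add_sub_cancel, norm_mul_exp_arg_mul_I]
  have e2 : u' = ‖u'‖ * exp (u'.arg * I) := (norm_mul_exp_arg_mul_I u').symm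
  have n1 := norm_exp_ofReal_mul_I u'.arg
  have r0 := norm_nonneg u
  have r1 := norm_nonneg u'
  generalize exp (u'.arg * I) = E at e1 e2 n1
  generalize ‖u‖ = r at e1 r0 ⊢
  generalize ‖u'‖ = r' at e2 r1 ⊢
  have e3 : ∑ i ∈ range (n + 1), u ^ i * u' ^ (n + 1 - 1 - i) =
      E ^ n * ∑ i ∈ range (n + 1), ((r ^ i * r' ^ (n - i) : ℝ) : ℂ) * exp ((i * θ : ℝ) * I) := by
    rw [mul_sum]
    refine sum_congr rfl fun i hi ↦ ?_
    obtain ⟨j, rfl⟩ := Nat.exists_eq_add_of_le (Nat.lt_succ_iff.1 (mem_range.1 hi))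
    rw [Nat.add_sub_cancel, Nat.add_sub_cancel_left, e1, e2, ofReal_mul (i : ℝ), mul_assoc (_ : ℂ) (θ : ℂ),
      ofReal_natCast, exp_nat_mul]
    push_cast
    ring
  rw [e3, norm_mul, norm_pow, n1, one_pow, one_mul]
  refine le_trans ?_ (mul_le_mul_of_nonneg_left (re_le_norm _) zero_le_two)
  rw [re_sum, mul_sum]
  have a1 : ∀ i ∈ range (n + 1), r ^ i * r' ^ (n - i) ≤
      2 * (((r ^ i * r' ^ (n - i) : ℝ) : ℂ) * exp ((i * θ : ℝ) * I)).re := fun i hi ↦ by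
    rw [re_ofReal_mul, exp_ofReal_mul_I_re, mul_left_comm]
    refine le_mul_of_one_le_right (by positivity) ?_
    have b1 : (i : ℝ) ≤ N := by exact_mod_cast (Nat.lt_succ_iff.1 (mem_range.1 hi)).trans hn
    have b2 : |i * θ| ≤ 1 := by
      rw [abs_mul, Nat.abs_cast]
      nlinarith [abs_nonneg θ]
    have b3 := Real.one_sub_sq_div_two_le_cos (x := i * θ)
    have b4 := (sq_le_one_iff_abs_le_one _).2 b2
    linarith
  refine le_trans ?_ (sum_le_sum a1)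
  have a2 := fun i hi ↦ single_le_sum (s := range (n + 1)) (f := fun i ↦ r ^ i * r' ^ (n - i))
    (fun _ _ ↦ by positivity) (a := i) hi
  rcases le_total r r' with h2 | h2
  · simpa [h2] using a2 0 (by simp)
  · simpa [h2] using a2 n (by simp)

/-- the tangent direction of `F` moves slowly near `z` -/
def StrAt (F : ℂ → Fin 3 → ℂ) (N : ℕ) (z : ℂ) : Prop :=
  ∃ (z0 : ℂ) (n : ℕ) (G : ℂ → Fin 3 → ℂ), n ≤ N ∧ G z ≠ 0 ∧ ∀ ξ, N * ‖ξ - z‖ < 1 →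
    HasDerivAt F ((ξ - z0) ^ n • G ξ) ξ ∧ ‖G ξ - G z‖ ≤ N * ‖ξ - z‖ * ‖G z‖

theorem StrAt.mono {F : ℂ → Fin 3 → ℂ} {N N' : ℕ} {z : ℂ} (h : StrAt F N z) (e : N ≤ N') :
    StrAt F N' z := by
  obtain ⟨z0, n, G, h1, h2, h3⟩ := h
  have e' : (N : ℝ) ≤ N' := by exact_mod_cast e
  refine ⟨z0, n, G, h1.trans e, h2, fun ξ hξ ↦ ?_⟩
  obtain ⟨a, b⟩ := h3 ξ (lt_of_le_of_lt (by gcongr) hξ)
  exact ⟨a, b.trans (by gcongr)⟩

/-- secants between points of the same colour are almost parallel -/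
theorem StrAt.sec {F : ℂ → Fin 3 → ℂ} {N : ℕ} {z : ℂ} (h : StrAt F N z) :
    ∃ (v : Fin 3 → ℂ) (z0 : ℂ), ‖v‖ = 1 ∧ ∀ (ρ : ℝ) (a b : ℂ), N * ρ < 1 → ‖a - z‖ ≤ ρ →
      ‖b - z‖ ≤ ρ → ⌊(a - z0).arg * N⌋ = ⌊(b - z0).arg * N⌋ →
      ∃ t : ℂ, ‖F a - F b - t • v‖ ≤ 2 * (N + 1) * N * ρ * ‖t‖ := by
  obtain ⟨z0, n, G, h1, h2, h3⟩ := h
  have g0 : 0 < ‖G z‖ := norm_pos_iff.2 h2
  have g1 : (‖G z‖ : ℂ) ≠ 0 := ofReal_ne_zero.2 g0.ne'
  have n1 : ((n : ℂ) + 1) ≠ 0 := by exact_mod_cast n.succ_ne_zero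
  refine ⟨(‖G z‖ : ℂ)⁻¹ • G z, z0, by
    rw [norm_smul, norm_inv, norm_real, norm_norm, inv_mul_cancel₀ g0.ne'],
    fun ρ a b hρ ha hb hc ↦ ⟨‖G z‖ * (((a - z0) ^ (n + 1) - (b - z0) ^ (n + 1)) / (n + 1)), ?_⟩⟩
  have r0 : 0 ≤ ρ := (norm_nonneg _).trans ha
  have a1 := sector h1 hc
  obtain ⟨μ, hμ⟩ : ∃ μ, max ‖a - z0‖ ‖b - z0‖ = μ := ⟨_, rfl⟩
  have m0 : 0 ≤ μ := hμ ▸ le_max_of_le_left (norm_nonneg _)
  have in1 : ∀ ξ ∈ closedBall z ρ ∩ closedBall z0 μ, N * ‖ξ - z‖ < 1 := fun ξ hξ ↦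
    lt_of_le_of_lt (by gcongr; exact mem_closedBall_iff_norm.1 hξ.1) hρ
  have a2 := Convex.norm_image_sub_le_of_norm_hasDerivWithin_le
    (f := fun ξ ↦ F ξ - ((ξ - z0) ^ (n + 1) / (n + 1)) • G z)
    (f' := fun ξ ↦ (ξ - z0) ^ n • (G ξ - G z)) (C := μ ^ n * (N * ρ * ‖G z‖))
    (s := closedBall z ρ ∩ closedBall z0 μ) (x := b) (y := a) (fun ξ hξ ↦ by
      have b1 := ((((hasDerivAt_id ξ).sub_const z0).fun_pow (n + 1)).div_const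
        ((n : ℂ) + 1)).smul_const (G z)
      refine (((h3 ξ (in1 ξ hξ)).1.fun_sub b1).congr_deriv ?_).hasDerivWithinAt
      rw [smul_sub, Nat.add_sub_cancel, Nat.cast_succ, mul_one, mul_div_cancel_left₀ _ n1]
      rfl)
    (fun ξ hξ ↦ by
      have b1 := mem_closedBall_iff_norm.1 hξ.1
      have b2 := mem_closedBall_iff_norm.1 hξ.2
      rw [norm_smul, norm_pow]
      gcongr
      exact (h3 ξ (in1 ξ hξ)).2.trans (by gcongr))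
    ((convex_closedBall _ _).inter (convex_closedBall _ _))
    ⟨mem_closedBall_iff_norm.2 hb, mem_closedBall_iff_norm.2 (hμ ▸ le_max_right _ _)⟩
    ⟨mem_closedBall_iff_norm.2 ha, mem_closedBall_iff_norm.2 (hμ ▸ le_max_left _ _)⟩
  rw [hμ, sub_sub_sub_cancel_right] at a1
  rw [smul_smul, mul_right_comm, mul_inv_cancel₀ g1, one_mul, sub_div, sub_smul, sub_sub_sub_comm]
  refine a2.trans ?_
  have n2 : ‖(n : ℂ) + 1‖ = n + 1 := by exact_mod_cast Complex.norm_natCast (n + 1)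
  have n3 : (n : ℝ) ≤ N := by exact_mod_cast h1
  rw [← sub_div, norm_mul, norm_div, n2, norm_real, norm_norm]
  calc _ = N * ρ * ‖G z‖ * (μ ^ n * ‖a - b‖) := by ring
    _ ≤ N * ρ * ‖G z‖ * (2 * ‖(a - z0) ^ (n + 1) - (b - z0) ^ (n + 1)‖) := by gcongr
    _ = 2 * (n + 1) * N * ρ * (‖G z‖ * (‖(a - z0) ^ (n + 1) - (b - z0) ^ (n + 1)‖ / (n + 1))) := by
      field_simp
    _ ≤ _ := by gcongr

theorem lip_near {G : ℂ → Fin 3 → ℂ} {z0 : ℂ} (hG : AnalyticAt ℂ G z0) (h0 : G z0 ≠ 0) :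
    ∃ δ L : ℝ, 0 < δ ∧ 0 ≤ L ∧ ∀ a b, ‖a - z0‖ < δ → ‖b - z0‖ < δ →
      G b ≠ 0 ∧ ‖G a - G b‖ ≤ L * ‖a - b‖ * ‖G b‖ := by
  obtain ⟨K, t, ht, hK⟩ := (hG.contDiffAt (n := 1)).exists_lipschitzOnWith
  have g0 : 0 < ‖G z0‖ := norm_pos_iff.2 h0
  have h1 : ∀ᶠ ξ in 𝓝 z0, ‖G z0‖ / 2 < ‖G ξ‖ :=
    hG.continuousAt.norm.eventually (lt_mem_nhds (by linarith))
  obtain ⟨δ, hδ, h2⟩ := Metric.eventually_nhds_iff.1 (h1.and ht)
  simp only [dist_eq_norm] at h2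
  refine ⟨δ, K * (2 / ‖G z0‖), hδ, by positivity, fun a b ha hb ↦
    ⟨norm_pos_iff.1 (by linarith [(h2 hb).1]), ?_⟩⟩
  refine (hK.norm_sub_le (h2 ha).2 (h2 hb).2).trans ?_
  calc _ = K * (2 / ‖G z0‖) * ‖a - b‖ * (‖G z0‖ / 2) := by field_simp
    _ ≤ _ := by gcongr; exact (h2 hb).1.le

theorem str_loc {F : ℂ → Fin 3 → ℂ} {z0 : ℂ} (hF : AnalyticAt ℂ F z0)
    (h : ¬ ∀ᶠ z in 𝓝 z0, deriv F z = 0) : ∃ t ∈ 𝓝 z0, ∃ N, ∀ z ∈ t, StrAt F N z := by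
  obtain ⟨n, G, hG, h0, h1⟩ := hF.deriv.exists_eventuallyEq_pow_smul_nonzero_iff.2 h
  obtain ⟨δ, L, hδ, hL, h2⟩ := lip_near hG h0
  obtain ⟨δ', hδ', h3⟩ := Metric.eventually_nhds_iff.1
    ((h1.and hF.eventually_analyticAt).and (ball_mem_nhds z0 hδ))
  obtain ⟨N, hN⟩ := exists_nat_ge (n + L + 2 / δ')
  have p1 : 0 < 2 / δ' := by positivity
  have p2 : (0 : ℝ) ≤ n := n.cast_nonneg
  refine ⟨ball z0 (δ' / 2), ball_mem_nhds _ (by positivity), N, fun z hz ↦ ?_⟩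
  have b1 : dist z z0 < δ' := (mem_ball.1 hz).trans (by linarith)
  have b2 := mem_ball_iff_norm.1 (h3 b1).2
  refine ⟨z0, n, G, by exact_mod_cast (show (n : ℝ) ≤ N by linarith), (h2 z z b2 b2).1,
    fun ξ hξ ↦ ?_⟩
  have b3 : dist ξ z0 < δ' := by
    have c1 : 2 / δ' * ‖ξ - z‖ < 1 := lt_of_le_of_lt (by gcongr; linarith) hξ
    rw [div_mul_eq_mul_div, div_lt_one hδ', ← dist_eq_norm] at c1
    linarith [dist_triangle ξ z z0, mem_ball.1 hz]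
  obtain ⟨⟨c1, c2⟩, c3⟩ := h3 b3
  exact ⟨c1 ▸ c2.differentiableAt.hasDerivAt,
    (h2 ξ z (mem_ball_iff_norm.1 c3) b2).2.trans (by gcongr; linarith)⟩

/-- straightness of a chart -/
def Str (f : Fin 3 → ℂ → ℂ) (N : ℕ) : Prop := ∀ z, ‖z‖ ≤ 1 → StrAt (fun s i ↦ f i s) N z

theorem str_nd {f : Fin 3 → ℂ → ℂ} {Cn : ℕ → ℕ} (hf : ∀ i, AnalyticOnNhd ℂ (f i) (closedBall 0 10))
    (hn : NDegC f Cn) : ∃ N, Str f N := by
  have hF : AnalyticOnNhd ℂ (fun s i ↦ f i s) (ball 0 10) := fun s hs ↦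
    analyticAt_pi_iff.2 fun i ↦ hf i s (ball_subset_closedBall hs)
  have h := (isCompact_closedBall (0 : ℂ) 1).induction_on
    (p := fun t ↦ ∃ N, ∀ z ∈ t, StrAt (fun s i ↦ f i s) N z) ⟨0, by simp⟩
    (fun s t hst ⟨N, hN⟩ ↦ ⟨N, fun z hz ↦ hN z (hst hz)⟩)
    (fun s t ⟨N, hN⟩ ⟨N', hN'⟩ ↦ ⟨max N N', fun z hz ↦ hz.elim
      (fun h ↦ (hN z h).mono (le_max_left _ _)) fun h ↦ (hN' z h).mono (le_max_right _ _)⟩)
    (fun z hz ↦ by
      have hz' : z ∈ ball (0 : ℂ) 10 := closedBall_subset_ball (by norm_num) hz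
      obtain ⟨t, ht, h⟩ := str_loc (hF z hz') fun h0 ↦ by
        have a1 := hF.deriv.eqOn_zero_of_preconnected_of_eventuallyEq_zero
          (convex_ball _ _).isPreconnected hz' h0
        obtain ⟨a, ha⟩ := isOpen_ball.exists_is_const_of_deriv_eq_zero
          (convex_ball _ _).isPreconnected hF.differentiableOn a1
        obtain ⟨s0, b1, b2, -⟩ := hn 1 (MvPolynomial.X 0 - MvPolynomial.C (a 0))
          (fun e ↦ by simpa using congrArg (MvPolynomial.eval fun _ ↦ a 0 + 1) e)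
          ((MvPolynomial.totalDegree_sub_C_le _ _).trans (MvPolynomial.totalDegree_X _).le)
        refine b2 ?_
        rw [← ha s0 (mem_ball_zero_iff.2 (by linarith))]
        simp
      exact ⟨t, mem_nhdsWithin_of_mem_nhds ht, h⟩)
  obtain ⟨N, hN⟩ := h
  exact ⟨N, fun z hz ↦ hN z (mem_closedBall_zero_iff.2 hz)⟩

/-- deep in a cusp -/
theorem str_deep {m : Fin 3 → ℂ} (hm : m ≠ 0) {g : Fin 3 → ℂ → ℂ} (hg : ∀ i, AnalyticAt ℂ (g i) 0) :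
    ∃ (δ : ℝ) (N : ℕ), 0 < δ ∧ ∀ c : ℂ, (∀ s : ℂ, ‖s‖ ≤ 2 → ‖exp (c + s)‖ < δ) →
      Str (fun i s ↦ m i * (c + s) + g i (exp (c + s))) N := by
  have hG : AnalyticAt ℂ (fun u i ↦ m i + deriv (g i) u * u) 0 :=
    analyticAt_pi_iff.2 fun i ↦ analyticAt_const.add ((hg i).deriv.mul analyticAt_id)
  obtain ⟨δ, L, hδ, hL, h2⟩ := lip_near hG (by simpa using hm)
  obtain ⟨δ', hδ', h3⟩ := Metric.eventually_nhds_iff.1
    ((eventually_all.2 fun i ↦ (hg i).eventually_analyticAt).and (ball_mem_nhds (0 : ℂ) hδ))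
  obtain ⟨N, hN⟩ := exists_nat_ge (1 + L * (δ' * 2))
  have p1 : 0 ≤ L * (δ' * 2) := by positivity
  refine ⟨δ', N, hδ', fun c hc z hz ↦ ?_⟩
  have b1 : ∀ s : ℂ, ‖s‖ ≤ 2 → (∀ i, AnalyticAt ℂ (g i) (exp (c + s))) ∧ ‖exp (c + s) - 0‖ < δ :=
    fun s hs ↦ by
      have := h3 (y := exp (c + s)) (by simpa using hc s hs)
      exact ⟨this.1, mem_ball_iff_norm.1 this.2⟩
  have b2 := (b1 z (by linarith)).2
  refine ⟨0, 0, fun s i ↦ m i + deriv (g i) (exp (c + s)) * exp (c + s), Nat.zero_le _,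
    (h2 _ _ b2 b2).1, fun ξ hξ ↦ ?_⟩
  have b3 : ‖ξ - z‖ ≤ 1 := by nlinarith [norm_nonneg (ξ - z)]
  have b4 : ‖ξ‖ ≤ 2 := by linarith [norm_sub_norm_le ξ z]
  constructor
  · rw [pow_zero, one_smul]
    refine hasDerivAt_pi.2 fun i ↦ ?_
    have c1 := (hasDerivAt_id ξ).const_add c
    have c2 := (c1.const_mul (m i)).fun_add
      (((b1 ξ b4).1 i).differentiableAt.hasDerivAt.comp ξ c1.cexp)
    simpa using c2
  · refine (h2 _ _ (b1 ξ b4).2 b2).2.trans (mul_le_mul_of_nonneg_right ?_ (norm_nonneg _))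
    have c1 : exp (c + ξ) - exp (c + z) = exp (c + z) * (exp (ξ - z) - 1) := by
      rw [mul_sub, ← exp_add, mul_one, add_assoc, add_sub_cancel]
    have c2 := norm_exp_sub_one_le b3
    have c3 := (hc z (by linarith)).le
    rw [c1, norm_mul]
    calc _ ≤ L * (δ' * (2 * ‖ξ - z‖)) := by gcongr
      _ = L * (δ' * 2) * ‖ξ - z‖ := by ring
      _ ≤ _ := by gcongr; linarith

/-- a singular relation as a polynomial -/
def pol (p : Fin 5 → ℤ) : MvPolynomial (Fin 3) ℂ :=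
  MvPolynomial.C (p 0 : ℂ) * MvPolynomial.X 0 + MvPolynomial.C (p 1 : ℂ) * MvPolynomial.X 1 +
    MvPolynomial.C (p 2 : ℂ) * MvPolynomial.X 2 + MvPolynomial.C (p 3 : ℂ) *
      (MvPolynomial.X 1 * MvPolynomial.X 1 - MvPolynomial.X 0 * MvPolynomial.X 2) +
    MvPolynomial.C (p 4 : ℂ)

theorem eval_pol (p : Fin 5 → ℤ) (T : Fin 3 → ℂ) : MvPolynomial.eval T (pol p) = ev p T := by
  simp [pol, ev, sq]

theorem pol_deg (p : Fin 5 → ℤ) : (pol p).totalDegree ≤ 2 := by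
  have h1 : ∀ (x : ℂ) (q : MvPolynomial (Fin 3) ℂ), q.totalDegree ≤ 2 →
      (MvPolynomial.C x * q).totalDegree ≤ 2 := fun x q h ↦
    (MvPolynomial.totalDegree_mul _ _).trans (by rwa [MvPolynomial.totalDegree_C, zero_add])
  have h2 : ∀ i, (MvPolynomial.X i : MvPolynomial (Fin 3) ℂ).totalDegree ≤ 2 := fun i ↦ by
    rw [MvPolynomial.totalDegree_X]; exact one_le_two
  have h3 : ∀ i j, (MvPolynomial.X i * MvPolynomial.X j : MvPolynomial (Fin 3) ℂ).totalDegree ≤ 2 :=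
    fun i j ↦ (MvPolynomial.totalDegree_mul _ _).trans
      (by rw [MvPolynomial.totalDegree_X, MvPolynomial.totalDegree_X])
  have h4 : ∀ a b : MvPolynomial (Fin 3) ℂ, a.totalDegree ≤ 2 → b.totalDegree ≤ 2 →
      (a + b).totalDegree ≤ 2 := fun a b ha hb ↦
    (MvPolynomial.totalDegree_add _ _).trans (max_le ha hb)
  exact h4 _ _ (h4 _ _ (h4 _ _ (h4 _ _ (h1 _ _ (h2 _)) (h1 _ _ (h2 _))) (h1 _ _ (h2 _)))
    (h1 _ _ ((MvPolynomial.totalDegree_sub _ _).trans (max_le (h3 _ _) (h3 _ _)))))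
    (by rw [MvPolynomial.totalDegree_C]; exact zero_le_two)

theorem pol_ne {p : Fin 5 → ℤ} (hp : p ≠ 0) : pol p ≠ 0 := fun h ↦ by
  have a := fun x y z : ℂ ↦ eval_pol p ![x, y, z]
  simp only [h, map_zero, ev, Matrix.cons_val_zero, Matrix.cons_val_one, Matrix.cons_val] at a
  refine hp (funext fun i ↦ Int.cast_eq_zero (α := ℂ).1 ?_)
  fin_cases i
  · change (p 0 : ℂ) = 0
    linear_combination a 0 0 0 - a 1 0 0
  · change (p 1 : ℂ) = 0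
    linear_combination a 0 (-1) 0 / 2 - a 0 1 0 / 2
  · change (p 2 : ℂ) = 0
    linear_combination a 0 0 0 - a 0 0 1
  · change (p 3 : ℂ) = 0
    linear_combination a 0 0 0 - a 0 (-1) 0 / 2 - a 0 1 0 / 2
  · change (p 4 : ℂ) = 0
    linear_combination -a 0 0 0

theorem tinyQ {Cn : ℕ → ℕ} {N : ℕ} {M : ℝ} {f : Fin 3 → ℂ → ℂ} {z : ℂ} {S : Finset ℂ}
    (hM : 1000 ≤ M) (hf : ∀ i, AnalyticOnNhd ℂ (f i) (closedBall 0 10))
    (hb : ∀ i u, ‖u‖ ≤ 10 → ‖f i u‖ ≤ M) (hnd : NDegC f Cn) (hs : Str f N) (hN : (N : ℝ) ≤ M)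
    (hS : ∀ u ∈ S, ‖u‖ ≤ 1 ∧ ‖u - z‖ ≤ (M ^ 102)⁻¹ ∧ Tw M fun i ↦ f i u) :
    S.card ≤ (Cn 2 + 1) * 3 * (8 * N + 1) := by
  classical
  have M0 : 0 < M := by linarith
  rcases S.eq_empty_or_nonempty with rfl | ⟨s1, h1⟩
  · simp
  obtain ⟨v, z0, hv, hsec⟩ := (hs s1 (hS s1 h1).1).sec
  have near : ∀ u ∈ S, ∀ u' ∈ S, ‖u - u'‖ ≤ 2 * (M ^ 102)⁻¹ := fun u hu u' hu' ↦ by
    rw [show u - u' = (u - z) - (u' - z) by ring, two_mul]
    exact norm_sub_le_of_le (hS u hu).2.1 (hS u' hu').2.1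
  have N0 : (0 : ℝ) ≤ N := N.cast_nonneg
  have e1 : 2 * (N + 1) * N * (2 * (M ^ 102)⁻¹) ≤ (M ^ 98)⁻¹ :=
    calc _ ≤ 2 * (M + M) * M * (2 * (M ^ 102)⁻¹) := by gcongr; linarith
      _ = (M ^ 98)⁻¹ * (8 / M ^ 2) := by field_simp; ring
      _ ≤ _ := mul_le_of_le_one_right (by positivity) ((div_le_one (by positivity)).2 (by nlinarith))
  have e2 : M * (2 * (M ^ 102)⁻¹) ≤ (M ^ 98)⁻¹ :=
    calc _ = (M ^ 98)⁻¹ * (2 / M ^ 3) := by field_simp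
      _ ≤ _ := mul_le_of_le_one_right (by positivity)
        ((div_le_one (by positivity)).2 (by nlinarith [sq_nonneg M]))
  have e3 : N * (2 * (M ^ 102)⁻¹) < 1 :=
    calc _ ≤ M * (2 * (M ^ 102)⁻¹) := by gcongr
      _ ≤ _ := e2
      _ < 1 := inv_lt_one_of_one_lt₀ (one_lt_pow₀ (by linarith) (by norm_num))
  have c1 : (Icc (-4 * N : ℤ) (4 * N)).card = 8 * N + 1 := by
    rw [Int.card_Icc]
    omega
  rw [← c1]
  refine card_le_mul_card_image_of_maps_to (f := fun u ↦ ⌊(u - z0).arg * N⌋) (fun u _ ↦ ?_) _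
    fun c _ ↦ ?_
  · have a1 := abs_le.1 ((abs_arg_le_pi (u - z0)).trans Real.pi_le_four)
    refine mem_Icc.2 ⟨Int.le_floor.2 ?_, Int.floor_le_iff.2 ?_⟩ <;> push_cast <;> nlinarith
  obtain ⟨p, p0, hp⟩ := tri hM (S.filter (fun u ↦ ⌊(u - z0).arg * N⌋ = c) : Set ℂ)
    (fun u i ↦ f i u) hv (fun s hs ↦ by
      have a1 := hS s (mem_filter.1 hs).1
      exact ⟨(pi_norm_le_iff_of_nonneg M0.le).2 fun i ↦ hb i s (by linarith [a1.1]), a1.2.2⟩)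
    fun s hs s' hs' ↦ by
      obtain ⟨a1, a2⟩ := mem_filter.1 hs
      obtain ⟨a3, a4⟩ := mem_filter.1 hs'
      obtain ⟨t, ht⟩ := hsec _ s s' e3 (near s a1 s1 h1) (near s' a3 s1 h1) (a2.trans a4.symm)
      refine ⟨(pi_norm_le_iff_of_nonneg (by positivity)).2 fun i ↦ ?_, t, ht.trans (by gcongr)⟩
      refine (Tiny.lip (hf i) (hb i) (hS s a1).1 (hS s' a3).1).trans (le_trans ?_ e2)
      gcongr
      exact near s a1 s' a3
  choose! l hl using hp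
  refine (card_le_mul_card_image_of_maps_to (f := l) (t := univ) (fun _ _ ↦ mem_univ _) _
    fun k _ ↦ ?_).trans_eq (by rw [card_univ, Fintype.card_fin])
  refine zero_countC hf hnd (pol_ne (p0 k)) (pol_deg _) _ fun s hs ↦ ?_
  obtain ⟨a1, a2⟩ := mem_filter.1 hs
  exact ⟨(hS s (mem_filter.1 a1).1).1.trans one_le_two, by rw [eval_pol, ← a2]; exact hl s a1⟩

end Pool.Agent.Lib.QM89
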