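import Pool.Agent.Lib.QM89.CB
import Pool.Agent.Lib.ECM.CNA

/-! Counting points with two singular relations, fourth part: normal forms of the two relations
and relations between the coefficients. -/

open Finset Metric

noncomputable section

namespace Pool.Agent.Lib.QM89

open Pool.Agent.Lib.ZP3 Pool.Agent.Lib.ZP3.Red Pool.Agent.Lib.ZP3.RED2
open Pool.Agent.Lib.ECM.CNT (mem_of)

abbrev PQ := MvPolynomial (Option (Fin 8)) ℂ

/-- value of a polynomial in the coefficients and the first coordinate -/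
def vq (y : Fin 8 → ℤ) (t : ℂ) (q : PQ) : ℂ :=
  MvPolynomial.eval (fun o ↦ o.elim t fun i ↦ (y i : ℂ)) q

/-- the second coordinate is quadratic and the third is rational -/
def RelQ (q : Fin 6 → PQ) (y : Fin 8 → ℤ) (T : Fin 3 → ℂ) : Prop :=
  vq y (T 0) (q 0) ≠ 0 ∧ vq y (T 0) (q 3) ≠ 0 ∧
    vq y (T 0) (q 0) * T 1 ^ 2 = vq y (T 0) (q 1) * T 1 + vq y (T 0) (q 2) ∧
    vq y (T 0) (q 3) * T 2 = vq y (T 0) (q 4) * T 1 + vq y (T 0) (q 5)

/-- polynomials of bounded degree in the coefficients and in the first coordinate -/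
def UU {S : Type} (y : S → Fin 8 → ℤ) (t : S → ℂ) (n : ℕ) : Submodule ℂ (S → ℂ) :=
  M (fun i (s : S) ↦ (y s i : ℂ)) n * M (fun (_ : Fin 1) (s : S) ↦ t s) n

section

variable {S : Type} {y : S → Fin 8 → ℤ} {t : S → ℂ}

theorem UU_le (a b : ℕ) : UU y t a * UU y t b ≤ UU y t (a + b) :=
  (mul_mul_mul_comm _ _ _ _).trans_le (mul_le_mul' (M_mul _ a b) (M_mul _ a b))

theorem UU_mul {a b : ℕ} {u v : S → ℂ} (hu : u ∈ UU y t a) (hv : v ∈ UU y t b) :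
    u * v ∈ UU y t (a + b) := UU_le a b (Submodule.mul_mem_mul hu hv)

theorem UU_one (n : ℕ) : 1 ∈ UU y t n := by
  rw [← mul_one 1]
  exact Submodule.mul_mem_mul (one_mem_M _ n) (one_mem_M _ n)

theorem UU_up {a b : ℕ} {u : S → ℂ} (hu : u ∈ UU y t a) (h : a ≤ b) : u ∈ UU y t b := by
  obtain ⟨c, rfl⟩ := Nat.exists_eq_add_of_le h
  simpa using UU_mul hu (UU_one c)

end

theorem UU_pol (q : PQ) : ∃ j, ∀ (S : Type) (y : S → Fin 8 → ℤ) (t : S → ℂ),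
    (fun s ↦ vq (y s) (t s) q) ∈ UU y t j := by
  induction q using MvPolynomial.induction_on with
  | C a =>
    exact ⟨0, fun S y t ↦ mem_of (Submodule.smul_mem _ a (UU_one 0)) fun s ↦ by simp [vq]⟩
  | add p q hp hq =>
    obtain ⟨a, ha⟩ := hp
    obtain ⟨b, hb⟩ := hq
    exact ⟨a + b, fun S y t ↦ mem_of (add_mem (UU_up (ha S y t) (by omega))
      (UU_up (hb S y t) (by omega))) fun s ↦ by simp [vq]⟩
  | mul_X p o hp =>
    obtain ⟨a, ha⟩ := hp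
    refine ⟨a + 1, fun S y t ↦ ?_⟩
    rcases o with _ | i
    · exact mem_of (UU_mul (ha S y t) (Submodule.mul_mem_mul (one_mem_M _ 1)
        (x_mem (fun (_ : Fin 1) (s : S) ↦ t s) 0))) fun s ↦ by simp [vq]
    · exact mem_of (UU_mul (ha S y t) (Submodule.mul_mem_mul
        (x_mem (fun i (s : S) ↦ (y s i : ℂ)) i) (one_mem_M _ 1))) fun s ↦ by simp [vq]

theorem clearQ {S : Type} {y : S → Fin 8 → ℤ} {t0 t : S → ℂ} {j : ℕ} {E z : S → ℂ}
    (hE : E ∈ UU y t0 j) (h1 : E * z ∈ UU y t0 j * Submodule.span ℂ {1, t})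
    (h2 : E * z * t ∈ UU y t0 j * Submodule.span ℂ {1, t}) {b k n : ℕ} (hb : b ≤ k) {x : S → ℂ}
    (hx : x ∈ UU y t0 n * Submodule.span ℂ {1, t}) :
    E ^ k * z ^ b * x ∈ UU y t0 (j * k + n) * Submodule.span ℂ {1, t} := by
  have a0 : ∀ (a b : ℕ) (u z : S → ℂ), u ∈ UU y t0 a → z ∈ UU y t0 b * Submodule.span ℂ {1, t} →
      u * z ∈ UU y t0 (a + b) * Submodule.span ℂ {1, t} := fun a b u z hu hz ↦ by
    have := Submodule.mul_mem_mul hu hz
    rw [← mul_assoc] at this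
    exact mul_le_mul' (UU_le a b) le_rfl this
  have a1 : ∀ b : ℕ, (E * z) ^ b * x ∈ UU y t0 (j * b + n) * Submodule.span ℂ {1, t} := fun b ↦ by
    induction b with
    | zero => simpa using hx
    | succ b ih =>
      rw [pow_succ', mul_assoc, mul_add_one, add_right_comm]
      refine Submodule.mul_induction_on
        (C := fun w ↦ E * z * w ∈ UU y t0 (j * b + n + j) * Submodule.span ℂ {1, t}) ih
        (fun u hu q hq ↦ ?_) fun w w' hw hw' ↦ mul_add (E * z) w w' ▸ add_mem hw hw'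
      obtain ⟨c, d, rfl⟩ := Submodule.mem_span_pair.1 hq
      rw [mul_left_comm]
      refine a0 _ _ _ _ hu ?_
      rw [mul_add, mul_smul_comm, mul_smul_comm, mul_one]
      exact add_mem (Submodule.smul_mem _ _ h1) (Submodule.smul_mem _ _ h2)
  have a2 : ∀ c : ℕ, E ^ c ∈ UU y t0 (j * c) := fun c ↦ by
    induction c with
    | zero => simpa using UU_one 0
    | succ c ih => exact pow_succ E c ▸ UU_mul ih hE
  obtain ⟨c, rfl⟩ := Nat.exists_eq_add_of_le' hb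
  rw [pow_add, mul_assoc (E ^ c), ← mul_pow, mul_assoc, mul_add, add_assoc]
  exact a0 _ _ _ _ (a2 c) (a1 b)

theorem relationsQ (q : Fin 6 → PQ) (m e : ℕ) : ∃ e' : ℕ, ∀ (y : ℂ → Fin 8 → ℤ)
    (T : ℂ → Fin 3 → ℂ) (S : Finset ℂ), (∀ s ∈ S, RelQ q (y s) (T s)) → Hyp y S (m + 1) e →
    ∀ I : Finset (Fin 8), I.card = m →
    ∃ F : MvPolynomial (Fin 8) (MvPolynomial (Fin 3) ℂ), F ≠ 0 ∧ F.vars ⊆ I ∧
      F.totalDegree ≤ e' ∧ (∀ α, (F.coeff α).totalDegree ≤ e') ∧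
      ∀ s ∈ S, MvPolynomial.eval₂ (MvPolynomial.eval (T s)) (fun i ↦ (y s i : ℂ)) F = 0 := by
  classical
  obtain ⟨c, hspan⟩ := sp_Y (m + 1) e
  choose j0 hj0 using fun l ↦ UU_pol (q l)
  obtain ⟨j, hj⟩ : ∃ j, ∀ l, j0 l ≤ j :=
    ⟨∑ l, j0 l, fun l ↦ single_le_sum (fun _ _ ↦ Nat.zero_le _) (mem_univ l)⟩
  obtain ⟨J, hJ⟩ : ∃ J, J = 4 * j + 8 := ⟨_, rfl⟩
  obtain ⟨k, hk⟩ : ∃ k, k = 2 * c * J ^ (m + 2) := ⟨_, rfl⟩
  refine ⟨8 * k, fun y T S hT hH I hI ↦ ?_⟩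
  obtain ⟨v, hv⟩ : ∃ v : Fin 6 → S → ℂ, ∀ l (s : S), vq (y s) (T s 0) (q l) = v l s :=
    ⟨_, fun _ _ ↦ rfl⟩
  have v1 : ∀ l, v l ∈ UU (fun s : S ↦ y s) (fun s ↦ T s 0) j := fun l ↦
    mem_of (UU_up (hj0 l S _ _) (hj l)) (hv l)
  have v2 : ∀ l l', v l * v l' ∈ UU (fun s : S ↦ y s) (fun s ↦ T s 0) (j + j) := fun l l' ↦
    UU_mul (v1 l) (v1 l')
  have r : ∀ s : S, v 0 s ≠ 0 ∧ v 3 s ≠ 0 ∧ v 0 s * T s 1 ^ 2 = v 1 s * T s 1 + v 2 s ∧
      v 3 s * T s 2 = v 4 s * T s 1 + v 5 s := fun s ↦ by simpa only [RelQ, hv] using hT s s.2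
  have q1 : (1 : S → ℂ) ∈ Submodule.span ℂ {1, fun s : S ↦ T s 1} :=
    Submodule.subset_span (Set.mem_insert _ _)
  have q2 : (fun s : S ↦ T s 1) ∈ Submodule.span ℂ {1, fun s : S ↦ T s 1} :=
    Submodule.subset_span (Set.mem_insert_of_mem _ rfl)
  have w1 := fun l l' ↦ Submodule.mul_mem_mul (v2 l l') q1
  have w2 := fun l l' ↦ Submodule.mul_mem_mul (v2 l l') q2
  have d1 : ∀ s, (v 0 * v 3) s ≠ 0 := fun s ↦ mul_ne_zero (r s).1 (r s).2.1
  have d2 : v 0 * v 3 * (fun s : S ↦ T s 1) * (fun s : S ↦ T s 1) ∈ _ :=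
    mem_of (add_mem (w2 3 1) (w1 3 2)) fun s ↦ by
      simp only [Pi.add_apply, Pi.mul_apply, Pi.one_apply]
      linear_combination -v 3 s * (r s).2.2.1
  have d3 : v 0 * v 3 * (fun s : S ↦ T s 2) ∈ _ :=
    mem_of (add_mem (w2 0 4) (w1 0 5)) fun s ↦ by
      simp only [Pi.add_apply, Pi.mul_apply, Pi.one_apply]
      linear_combination -v 0 s * (r s).2.2.2
  have d4 : v 0 * v 3 * (fun s : S ↦ T s 2) * (fun s : S ↦ T s 1) ∈ _ :=
    mem_of (add_mem (add_mem (w2 4 1) (w1 4 2)) (w2 0 5)) fun s ↦ by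
      simp only [Pi.add_apply, Pi.mul_apply, Pi.one_apply]
      linear_combination -v 0 s * T s 1 * (r s).2.2.2 - v 4 s * (r s).2.2.1
  have d5 := v2 0 3
  have d6 := w2 0 3
  generalize v 0 * v 3 = E at d1 d2 d3 d4 d5 d6
  set f : Fin 3 →₀ ℕ := Finsupp.equivFunOnFinite.symm fun _ ↦ k with hf
  have b1 : ∀ α : Iic (box I k 0), (∀ i, α.1 i ≤ k) ∧ α.1.support ⊆ I := fun α ↦ by
    have := mem_Iic.1 α.2
    refine ⟨fun i ↦ (this i).trans ?_, fun i hi ↦ by_contra fun hn ↦ ?_⟩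
    · rw [box_apply]; split_ifs <;> omega
    · exact Finsupp.mem_support_iff.1 hi (by simpa [box_apply, hn] using this i)
  have b2 : ∀ (β : Iic f) l, β.1 l ≤ k := fun β l ↦ mem_Iic.1 β.2 l
  have b3 : ∀ α : Iic (box I k 0), ∑ i, α.1 i ≤ 8 * k := fun α ↦
    (sum_le_card_nsmul _ _ k fun i _ ↦ (b1 α).1 i).trans (Nat.mul_le_mul_right k (by simp))
  obtain ⟨p, hp, x0, hx0⟩ := (((hspan y S hH (J * k)).mul
    (sp_M (fun (_ : Fin 1) (s : S) ↦ T s 0) (J * k))).mul (sp_pair fun s : S ↦ T s 1)).rel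
    (fun (x : Iic (box I k 0) × Iic f) (s : S) ↦ E s ^ k * E s ^ k *
      ((∏ l, T s l ^ x.2.1 l) * ∏ i, (y s i : ℂ) ^ x.1.1 i)) (fun x ↦ by
      have a3 : _ ∈ UU (fun s : S ↦ y s) (fun s ↦ T s 0) (8 * k) :=
        Submodule.mul_mem_mul (mon_mem _ (b3 x.1)) (mon_mem _ (γ := fun _ ↦ x.2.1 0)
          (by have := b2 x.2 0
              rw [Fin.sum_univ_one]
              omega))
      have a4 := clearQ d5 d3 d4 (b2 x.2 2)
        (clearQ d5 d6 d2 (b2 x.2 1) (Submodule.mul_mem_mul a3 q1))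
      rw [show (j + j) * k + ((j + j) * k + 8 * k) = J * k by rw [hJ]; ring] at a4
      refine mem_of a4 fun s ↦ ?_
      simp only [Pi.mul_apply, Pi.pow_apply, Finset.prod_apply, Fin.prod_univ_three, Pi.one_apply,
        Fin.prod_univ_one]
      ring) (by
      have a1 : J * k + 1 ≤ J * (k + 1) := by rw [mul_add_one]; omega
      rw [Fintype.card_prod, Fintype.card_coe, Fintype.card_coe, card_box, card_Iic_le, hI]
      calc _ ≤ c * (J * (k + 1)) ^ (m + 1) * (J * (k + 1)) ^ 1 * 2 := by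
            rw [Fintype.card_fin]
            gcongr
        _ = k * (k + 1) ^ (m + 2) := by
            rw [mul_pow, mul_pow]
            generalize k + 1 = z
            rw [hk]
            ring
        _ < (k + 1) * (k + 1) ^ (m + 2) := by gcongr; omega
        _ = _ := by
            simp only [hf, Finsupp.coe_equivFunOnFinite_symm, prod_const, card_univ,
              Fintype.card_fin]
            ring)
  have hco : ∀ α, (∑ x : Iic (box I k 0) × Iic f, MvPolynomial.monomial x.1.1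
      (MvPolynomial.monomial x.2.1 (p x))).coeff α =
      ∑ x, if x.1.1 = α then MvPolynomial.monomial x.2.1 (p x) else 0 := fun α ↦ by
    simp only [MvPolynomial.coeff_sum, MvPolynomial.coeff_monomial]
  have hsu : ∀ α ∈ (∑ x : Iic (box I k 0) × Iic f, MvPolynomial.monomial x.1.1
      (MvPolynomial.monomial x.2.1 (p x))).support, α ∈ Iic (box I k 0) := fun α hα ↦ by
    obtain ⟨x, -, hx⟩ := exists_ne_zero_of_sum_ne_zero
      (hco α ▸ MvPolynomial.mem_support_iff.1 hα)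
    exact (ite_ne_right_iff.1 hx).1 ▸ x.1.2
  refine ⟨∑ x : Iic (box I k 0) × Iic f, MvPolynomial.monomial x.1.1
    (MvPolynomial.monomial x.2.1 (p x)), fun h ↦ hx0 ?_, fun i hi ↦ ?_,
    Finset.sup_le fun α hα ↦ ?_, fun α ↦ ?_, fun s hs ↦ ?_⟩
  · have := congrArg (MvPolynomial.coeff x0.2.1) (hco x0.1.1)
    rw [h, MvPolynomial.coeff_sum, sum_eq_single_of_mem x0 (mem_univ _) fun x _ hne ↦ ?_] at this
    · simpa using this.symm
    · split_ifs with a1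
      · rw [MvPolynomial.coeff_monomial, if_neg]
        exact fun a2 ↦ hne (Prod.ext (Subtype.ext a1) (Subtype.ext a2))
      · rfl
  · obtain ⟨α, hα, hi'⟩ := (MvPolynomial.mem_vars_iff_mem_support i).1 hi
    exact (b1 ⟨α, hsu α hα⟩).2 hi'
  · rw [Finsupp.sum_fintype _ _ fun _ ↦ rfl]
    exact b3 ⟨α, hsu α hα⟩
  · rw [hco]
    refine MvPolynomial.totalDegree_finsetSum_le fun x _ ↦ ?_
    split_ifs
    · refine (MvPolynomial.totalDegree_monomial_le _ _).trans ?_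
      rw [Finsupp.sum_fintype _ _ fun _ ↦ rfl]
      exact (sum_le_card_nsmul _ _ k fun i _ ↦ b2 _ _).trans
        (Nat.mul_le_mul_right k (by simp))
    · simp
  · refine (mul_eq_zero.1 (?_ : E ⟨s, hs⟩ ^ k * E ⟨s, hs⟩ ^ k * _ = 0)).resolve_left
      (mul_ne_zero (pow_ne_zero _ (d1 _)) (pow_ne_zero _ (d1 _)))
    refine Eq.trans ?_ (congrFun hp ⟨s, hs⟩)
    rw [MvPolynomial.eval₂_sum, mul_sum, Finset.sum_apply]
    refine sum_congr rfl fun x _ ↦ ?_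
    rw [MvPolynomial.eval₂_monomial, MvPolynomial.eval_monomial,
      Finsupp.prod_fintype _ _ fun _ ↦ pow_zero _, Finsupp.prod_fintype _ _ fun _ ↦ pow_zero _,
      Pi.smul_apply, smul_eq_mul]
    ring

/-! ### the three normal forms -/

def Yq (i : Fin 8) : PQ := MvPolynomial.X (some i)

def Tq : PQ := MvPolynomial.X none

def QQ : Fin 3 → Fin 6 → PQ :=
  ![![Yq 2 * Yq 6, -(Yq 2 * Yq 5 + Yq 6 * Yq 1 * Tq),
      -(Yq 2 * (Yq 4 * Tq + Yq 7) + Yq 6 * Tq * (Yq 0 * Tq + Yq 3)), Yq 2, -Yq 1,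
      -(Yq 0 * Tq + Yq 3)],
    ![Yq 5, -(Yq 4 * Tq + Yq 7), 0, Yq 2, -Yq 1, -(Yq 0 * Tq + Yq 3)],
    ![Yq 1, -(Yq 0 * Tq + Yq 2), 0, Yq 1 * (Yq 5 - Yq 6 * Tq),
      Yq 6 * (Yq 0 * Tq + Yq 2) - Yq 1 * Yq 4, -(Yq 1 * (Yq 3 * Tq + Yq 7))]]

theorem elim {H : ℝ} (hH : 1 ≤ H) {u w : Fin 5 → ℤ} {T : Fin 3 → ℂ} (i : Fin 5) (hi : u i ≠ 0)
    (h : ∀ a b : ℤ, a • u + b • w = 0 → a = 0 ∧ b = 0) (hu : ∀ l, |(u l : ℝ)| ≤ H)
    (hw : ∀ l, |(w l : ℝ)| ≤ H) (eu : ev u T = 0) (ew : ev w T = 0) :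
    ∃ w' : Fin 5 → ℤ, w' i = 0 ∧ (∀ a b : ℤ, a • w' + b • u = 0 → a = 0 ∧ b = 0) ∧
      (∀ l, |(w' l : ℝ)| ≤ 2 * H ^ 2) ∧ ev w' T = 0 := by
  refine ⟨u i • w - w i • u, by simp [mul_comm], fun a b e ↦ ?_, fun l ↦ ?_, ?_⟩
  · obtain ⟨a1, a2⟩ := h (b - a * w i) (a * u i) (by rw [← e]; module)
    have a3 := (mul_eq_zero.1 a2).resolve_right hi
    exact ⟨a3, by simpa [a3] using a1⟩
  · simp only [Pi.sub_apply, Pi.smul_apply, smul_eq_mul, Int.cast_sub, Int.cast_mul]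
    refine (abs_sub _ _).trans ?_
    rw [abs_mul, abs_mul, two_mul, sq]
    gcongr <;> first | exact hu _ | exact hw _
  · simp only [ev, Pi.sub_apply, Pi.smul_apply, smul_eq_mul, Int.cast_sub, Int.cast_mul] at eu ew ⊢
    linear_combination u i * ew - w i * eu

theorem Tw.form {M : ℝ} (hM : 2 ≤ M) {T : Fin 3 → ℂ} (h : Tw M T) :
    ∃ (k : Fin 3) (y : Fin 8 → ℤ), (∀ i, |(y i : ℝ)| ≤ M ^ 15) ∧ RelQ (QQ k) y T := by
  obtain ⟨h0, p, hp, h1⟩ := h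
  have t0 : (T 0).im ≠ 0 := fun e ↦ by
    rw [e] at h0
    nlinarith [sq_nonneg (T 1).im]
  have key : ∀ a e : ℤ, a * T 0 + e = 0 → a = 0 ∧ e = 0 := fun a e h ↦ by
    have a1 : a = 0 := by simpa [t0] using congrArg Complex.im h
    exact ⟨a1, by simpa [a1] using h⟩
  have hp' : ∀ a b : ℤ, a • p 0 + b • p 1 = 0 → a = 0 ∧ b = 0 := fun a b e ↦ by
    have := Fintype.linearIndependent_iff.1 hp ![a, b] (by simpa [Fin.sum_univ_two] using e)
    exact ⟨this 0, this 1⟩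
  have m1 : M ≤ 2 * M ^ 2 := by nlinarith
  have m3 : 2 * (2 * M ^ 2) ^ 2 ≤ M ^ 15 :=
    calc _ = 2 ^ 3 * M ^ 4 := by ring
      _ ≤ M ^ 3 * M ^ 4 := by gcongr
      _ = M ^ 7 := by ring
      _ ≤ _ := pow_le_pow_right₀ (by linarith) (by norm_num)
  have m2 : 2 * M ^ 2 ≤ M ^ 15 := le_trans (by nlinarith) m3
  obtain ⟨u, w, u3, hi, hu, hw, eu, ew⟩ : ∃ u w : Fin 5 → ℤ, u 3 = 0 ∧
      (∀ a b : ℤ, a • u + b • w = 0 → a = 0 ∧ b = 0) ∧ (∀ l, |(u l : ℝ)| ≤ 2 * M ^ 2) ∧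
      (∀ l, |(w l : ℝ)| ≤ 2 * M ^ 2) ∧ ev u T = 0 ∧ ev w T = 0 := by
    by_cases c : p 0 3 = 0
    · exact ⟨p 0, p 1, c, hp', fun l ↦ ((h1 0).1 l).trans m1, fun l ↦ ((h1 1).1 l).trans m1,
        (h1 0).2, (h1 1).2⟩
    · obtain ⟨w', a1, a2, a3, a4⟩ := elim (by linarith) 3 c hp' (h1 0).1 (h1 1).1 (h1 0).2 (h1 1).2
      exact ⟨w', p 0, a1, a2, a3, fun l ↦ ((h1 0).1 l).trans m1, a4, (h1 0).2⟩
  have ext5 : ∀ x : Fin 5 → ℤ, x 0 = 0 → x 1 = 0 → x 2 = 0 → x 3 = 0 → x 4 = 0 → x = 0 :=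
    fun x a0 a1 a2 a3 a4 ↦ funext fun i ↦ by fin_cases i <;> assumption
  by_cases c : u 2 = 0
  · simp only [ev, u3, c, Int.cast_zero, zero_mul, add_zero] at eu
    have c1 : u 1 ≠ 0 := fun e ↦ by
      obtain ⟨a1, a2⟩ := key (u 0) (u 4) (by simpa [e] using eu)
      simpa using (hi 1 0 (by simpa using ext5 u a1 e c u3 a2)).1
    have c1' : (u 1 : ℂ) ≠ 0 := Int.cast_ne_zero.2 c1
    have c2 : (w 2 : ℂ) - w 3 * T 0 ≠ 0 := fun e ↦ by
      obtain ⟨a1, a2⟩ := key (-w 3) (w 2) (by push_cast; linear_combination e)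
      have a3 : w 3 = 0 := neg_eq_zero.1 a1
      simp only [ev, a2, a3, Int.cast_zero, zero_mul, add_zero] at ew
      obtain ⟨a4, a5⟩ := key (w 1 * u 0 - u 1 * w 0) (w 1 * u 4 - u 1 * w 4)
        (by push_cast; linear_combination w 1 * eu - u 1 * ew)
      refine c1 (neg_eq_zero.1 (hi (w 1) (-u 1) (ext5 _ ?_ ?_ ?_ ?_ ?_)).2) <;>
        simp only [Pi.add_apply, Pi.smul_apply, smul_eq_mul, c, u3, a2, a3] <;> linarith
    refine ⟨2, ![u 0, u 1, u 4, w 0, w 1, w 2, w 3, w 4], fun i ↦ ?_, ?_⟩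
    · fin_cases i <;> first | exact (hu _).trans m2 | exact (hw _).trans m2
    · simp only [ev] at ew
      refine ⟨?_, ?_, ?_, ?_⟩ <;> simp [vq, QQ, Yq, Tq]
      · exact c1
      · exact ⟨c1, c2⟩
      · linear_combination T 1 * eu
      · linear_combination u 1 * ew - w 3 * T 1 * eu
  · obtain ⟨w', a1, a2, a3, a4⟩ := elim (by nlinarith) 2 c hi hu hw eu ew
    have hb : ∀ i, |((![u 0, u 1, u 2, u 4, w' 0, w' 1, w' 3, w' 4] i : ℤ) : ℝ)| ≤ M ^ 15 :=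
      fun i ↦ by fin_cases i <;> first | exact (hu _).trans m2 | exact (a3 _).trans m3
    simp only [ev, u3, a1, Int.cast_zero, zero_mul, add_zero] at eu a4
    by_cases c3 : w' 3 = 0
    · simp only [c3, Int.cast_zero, zero_mul, add_zero] at a4
      have c1 : w' 1 ≠ 0 := fun e ↦ by
        obtain ⟨b1, b2⟩ := key (w' 0) (w' 4) (by simpa [e] using a4)
        simpa using (a2 1 0 (by simpa using ext5 w' b1 e a1 c3 b2)).1
      refine ⟨1, _, hb, ?_, ?_, ?_, ?_⟩ <;> simp [vq, QQ, Yq, Tq]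
      · exact c1
      · exact c
      · linear_combination T 1 * a4
      · linear_combination eu
    · refine ⟨0, _, hb, ?_, ?_, ?_, ?_⟩ <;> simp [vq, QQ, Yq, Tq]
      · exact ⟨c, c3⟩
      · exact c
      · linear_combination u 2 * a4 + w' 3 * T 0 * eu
      · linear_combination eu

end Pool.Agent.Lib.QM89
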